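import Mathlib
import Pool.Agent.H713R2.AR.AF4

/-! Circle means and Taylor coefficients. -/

set_option autoImplicit false
open Complex Filter Topology Set Metric MeasureTheory
open scoped ENNReal

namespace Pool.Agent.TH325.SI

open Pool.Agent.H713R2

/-- the quadratic mean on the circle of radius `t` -/
noncomputable def mn (f : ℂ → ℂ) (t : ℝ) : ℝ :=
  (2 * Real.pi)⁻¹ * ∫ θ in (0:ℝ)..(2 * Real.pi), ‖f (circleMap 0 t θ)‖ ^ 2

theorem cm_mem {t : ℝ} (h0 : 0 < t) (h1 : t < 1) (θ : ℝ) : circleMap 0 t θ ∈ ball (0:ℂ) 1 := by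
  rw [mem_ball_zero_iff, norm_circleMap_zero, abs_of_pos h0]
  exact h1

theorem norm_cm {t : ℝ} (h0 : 0 < t) (θ : ℝ) : ‖circleMap 0 t θ‖ = t := by
  rw [norm_circleMap_zero, abs_of_pos h0]

theorem cont_cm {f : ℂ → ℂ} (hf : DifferentiableOn ℂ f (ball 0 1)) {t : ℝ} (h0 : 0 < t) (h1 : t < 1) :
    Continuous fun θ : ℝ => f (circleMap 0 t θ) := by
  rw [← continuousOn_univ]
  exact hf.continuousOn.comp (continuous_circleMap 0 t).continuousOn fun θ _ => cm_mem h0 h1 θ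

theorem par {f : ℂ → ℂ} (hf : DifferentiableOn ℂ f (ball 0 1)) {t : ℝ} (h0 : 0 < t) (h1 : t < 1) :
    HasSum (fun n : ℕ => ‖tc f n‖ ^ 2 * t ^ (2 * n)) (mn f t) := by
  have h := AR.parseval_tc hf hf h0 h1
  have h2 : HasSum (fun k : ℕ => ((2 * Real.pi * (‖tc f k‖ ^ 2 * t ^ (2 * k)) : ℝ) : ℂ))
      ((∫ θ in (-Real.pi)..Real.pi, ‖f (circleMap 0 t θ)‖ ^ 2 : ℝ) : ℂ) := by
    have e1 : (fun k : ℕ => 2 * (Real.pi : ℂ) * ((starRingEnd ℂ) (tc f k) * tc f k * (t : ℂ) ^ (2 * k)))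
        = fun k : ℕ => ((2 * Real.pi * (‖tc f k‖ ^ 2 * t ^ (2 * k)) : ℝ) : ℂ) := by
      funext k
      rw [Complex.conj_mul']
      push_cast
      ring
    have e2 : (∫ θ in (-Real.pi)..Real.pi, (starRingEnd ℂ) (f (circleMap 0 t θ)) * f (circleMap 0 t θ))
        = ((∫ θ in (-Real.pi)..Real.pi, ‖f (circleMap 0 t θ)‖ ^ 2 : ℝ) : ℂ) := by
      rw [← intervalIntegral.integral_ofReal]
      apply intervalIntegral.integral_congr
      intro θ _
      simp only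
      rw [Complex.conj_mul']
      push_cast
      ring
    rw [e1, e2] at h
    exact h
  rw [Complex.hasSum_ofReal] at h2
  have h3 : ∫ θ in (-Real.pi)..Real.pi, ‖f (circleMap 0 t θ)‖ ^ 2 = ∫ θ in (0:ℝ)..(2 * Real.pi), ‖f (circleMap 0 t θ)‖ ^ 2 := by
    have hper : Function.Periodic (fun θ : ℝ => ‖f (circleMap 0 t θ)‖ ^ 2) (2 * Real.pi) := by
      intro θ
      simp only
      rw [periodic_circleMap 0 t θ]
    have := hper.intervalIntegral_add_eq (-Real.pi) 0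
    rw [zero_add] at this
    rw [← this]
    congr 1
    ring
  rw [h3] at h2
  have h4 := h2.mul_left (2 * Real.pi)⁻¹
  have hpi := Real.pi_pos
  have e3 : (fun k : ℕ => (2 * Real.pi)⁻¹ * (2 * Real.pi * (‖tc f k‖ ^ 2 * t ^ (2 * k)))) = fun k : ℕ => ‖tc f k‖ ^ 2 * t ^ (2 * k) := by
    funext k
    field_simp
  rw [e3] at h4
  exact h4

theorem mn_nonneg (f : ℂ → ℂ) (t : ℝ) : 0 ≤ mn f t := by
  have hpi : (0:ℝ) ≤ 2 * Real.pi := by positivity
  exact mul_nonneg (by positivity) (intervalIntegral.integral_nonneg hpi fun θ _ => sq_nonneg _)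

theorem mn_mono {f g : ℂ → ℂ} (hf : DifferentiableOn ℂ f (ball 0 1)) (hg : DifferentiableOn ℂ g (ball 0 1))
    {t : ℝ} (h0 : 0 < t) (h1 : t < 1) {M : ℝ} (h : ∀ θ : ℝ, ‖f (circleMap 0 t θ)‖ ^ 2 ≤ M * ‖g (circleMap 0 t θ)‖ ^ 2) :
    mn f t ≤ M * mn g t := by
  have hpi : (0:ℝ) ≤ 2 * Real.pi := by positivity
  have h2 : ∫ θ in (0:ℝ)..(2 * Real.pi), ‖f (circleMap 0 t θ)‖ ^ 2 ≤ ∫ θ in (0:ℝ)..(2 * Real.pi), M * ‖g (circleMap 0 t θ)‖ ^ 2 := by
    apply intervalIntegral.integral_mono_on hpi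
    · exact ((cont_cm hf h0 h1).norm.pow 2).intervalIntegrable _ _
    · exact (continuous_const.mul ((cont_cm hg h0 h1).norm.pow 2)).intervalIntegrable _ _
    · intro θ _
      exact h θ
  rw [intervalIntegral.integral_const_mul] at h2
  unfold mn
  calc (2 * Real.pi)⁻¹ * ∫ θ in (0:ℝ)..(2 * Real.pi), ‖f (circleMap 0 t θ)‖ ^ 2
      ≤ (2 * Real.pi)⁻¹ * (M * ∫ θ in (0:ℝ)..(2 * Real.pi), ‖g (circleMap 0 t θ)‖ ^ 2) := by
        apply mul_le_mul_of_nonneg_left h2 (by positivity)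
    _ = _ := by ring

/-- the mean of `|f'|²` -/
theorem par_deriv {f : ℂ → ℂ} (hf : DifferentiableOn ℂ f (ball 0 1)) {t : ℝ} (h0 : 0 < t) (h1 : t < 1) :
    HasSum (fun n : ℕ => ((n:ℝ) + 1) ^ 2 * ‖tc f (n + 1)‖ ^ 2 * t ^ (2 * n)) (mn (deriv f) t) := by
  have h := par (hf.deriv isOpen_ball) h0 h1
  have e : (fun n : ℕ => ‖tc (deriv f) n‖ ^ 2 * t ^ (2 * n)) = fun n : ℕ => ((n:ℝ) + 1) ^ 2 * ‖tc f (n + 1)‖ ^ 2 * t ^ (2 * n) := by
    funext n
    rw [tc_deriv, norm_mul, mul_pow]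
    have : ((n:ℂ) + 1) = (((n:ℝ) + 1 : ℝ) : ℂ) := by push_cast; rfl
    rw [this, Complex.norm_real, Real.norm_of_nonneg (by positivity)]
  rw [e] at h
  exact h

/-- the antiderivative of `4 t^(2n+1) log (ρ/t)` -/
theorem int_log {ρ : ℝ} (hρ : 0 < ρ) (n : ℕ) :
    ∫⁻ t in Ioo 0 ρ, ENNReal.ofReal (4 * t * Real.log (ρ / t) * t ^ (2 * n)) = ENNReal.ofReal (ρ ^ (2 * n + 2) / ((n:ℝ) + 1) ^ 2) := by
  set F : ℝ → ℝ := fun t => 4 * (t ^ (2 * n + 1) / (2 * n + 2) * (t * Real.log ρ - t * Real.log t) + t ^ (2 * n + 2) / (2 * n + 2) ^ 2) with hF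
  set F' : ℝ → ℝ := fun t => 4 * t * Real.log (ρ / t) * t ^ (2 * n) with hF'
  have hn : (2 * (n:ℝ) + 2) ≠ 0 := by positivity
  have hFc : Continuous F := by
    have := Real.continuous_mul_log
    simp only [hF]
    fun_prop
  have hd : ∀ t ∈ Ioo 0 ρ, HasDerivAt F (F' t) t := by
    intro t ht
    have ht0 : t ≠ 0 := ht.1.ne'
    have h1 := Real.hasDerivAt_mul_log ht0
    have h2 : HasDerivAt (fun t : ℝ => t * Real.log ρ) (Real.log ρ) t := by
      simpa using (hasDerivAt_id t).mul_const (Real.log ρ)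
    have h3 : HasDerivAt (fun t : ℝ => t ^ (2 * n + 1) / (2 * (n:ℝ) + 2)) ((2 * n + 1 : ℕ) * t ^ (2 * n) / (2 * n + 2)) t := by
      have := (hasDerivAt_pow (2 * n + 1) t).div_const (2 * (n:ℝ) + 2)
      simpa using this
    have h4 : HasDerivAt (fun t : ℝ => t ^ (2 * n + 2) / (2 * (n:ℝ) + 2) ^ 2) ((2 * n + 2 : ℕ) * t ^ (2 * n + 1) / (2 * n + 2) ^ 2) t := by
      have := (hasDerivAt_pow (2 * n + 2) t).div_const ((2 * (n:ℝ) + 2) ^ 2)
      simpa using this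
    have h5 := ((h3.fun_mul (h2.fun_sub h1)).fun_add h4).const_mul 4
    refine h5.congr_deriv ?_
    simp only [hF']
    rw [Real.log_div hρ.ne' ht0]
    push_cast
    field_simp
    ring
  have hpos : ∀ t ∈ Ioo 0 ρ, 0 ≤ F' t := by
    intro t ht
    have h1 : 0 ≤ Real.log (ρ / t) := Real.log_nonneg ((one_le_div ht.1).2 ht.2.le)
    have := ht.1.le
    simp only [hF']
    positivity
  have hint := intervalIntegral.integrableOn_deriv_of_nonneg hFc.continuousOn hd hpos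
  have hI : IntervalIntegrable F' volume 0 ρ := by
    rw [intervalIntegrable_iff_integrableOn_Ioc_of_le hρ.le]
    exact hint
  have hftc := intervalIntegral.integral_eq_sub_of_hasDerivAt_of_le hρ.le hFc.continuousOn hd hI
  have h6 : ∫⁻ t in Ioo 0 ρ, ENNReal.ofReal (F' t) = ENNReal.ofReal (∫ t in Ioo 0 ρ, F' t) := by
    rw [ofReal_integral_eq_lintegral_ofReal (hint.mono_set Ioo_subset_Ioc_self)]
    rw [EventuallyLE, ae_restrict_iff' measurableSet_Ioo]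
    exact Eventually.of_forall hpos
  rw [h6]
  congr 1
  rw [← integral_Ioc_eq_integral_Ioo, ← intervalIntegral.integral_of_le hρ.le, hftc]
  simp only [hF]
  have h7 : (0:ℝ) ^ (2 * n + 1) = 0 := by simp
  have h8 : (0:ℝ) ^ (2 * n + 2) = 0 := by simp
  rw [h7, h8]
  field_simp
  ring

end Pool.Agent.TH325.SI
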