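import Mathlib
import Pool.Agent.TH325.SI.A

/-! The integral inequality for `exp (c |H|²)`. -/

set_option autoImplicit false
open Complex Filter Topology Set Metric MeasureTheory
open scoped ENNReal

namespace Pool.Agent.TH325.SI

open Pool.Agent.H713R2

/-- the series of the mean of `|f'|²` -/
noncomputable def DD (f : ℂ → ℂ) (t : ℝ) : ℝ≥0∞ :=
  ∑' n : ℕ, ENNReal.ofReal (((n:ℝ) + 1) ^ 2 * ‖tc f (n + 1)‖ ^ 2 * t ^ (2 * n))

theorem measurable_DD (f : ℂ → ℂ) : Measurable (DD f) := by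
  apply Measurable.tsum
  intro n
  fun_prop

theorem DD_eq {f : ℂ → ℂ} (hf : DifferentiableOn ℂ f (ball 0 1)) {t : ℝ} (h0 : 0 < t) (h1 : t < 1) :
    DD f t = ENNReal.ofReal (mn (deriv f) t) := by
  have h := par_deriv hf h0 h1
  unfold DD
  rw [← ENNReal.ofReal_tsum_of_nonneg (fun n => by positivity) h.summable, h.tsum_eq]

theorem mn_lint {f : ℂ → ℂ} (hf : DifferentiableOn ℂ f (ball 0 1)) (hf0 : f 0 = 0) {ρ : ℝ} (h0 : 0 < ρ) (h1 : ρ < 1) :
    ENNReal.ofReal (mn f ρ) = ∫⁻ t in Ioo 0 ρ, ENNReal.ofReal (4 * t * Real.log (ρ / t)) * DD f t := by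
  have hw : ∀ t ∈ Ioo 0 ρ, 0 ≤ 4 * t * Real.log (ρ / t) := by
    intro t ht
    have h1 : 0 ≤ Real.log (ρ / t) := Real.log_nonneg ((one_le_div ht.1).2 ht.2.le)
    have := ht.1.le
    positivity
  have e1 : ∫⁻ t in Ioo 0 ρ, ENNReal.ofReal (4 * t * Real.log (ρ / t)) * DD f t
      = ∫⁻ t in Ioo 0 ρ, ∑' n : ℕ, ENNReal.ofReal (((n:ℝ) + 1) ^ 2 * ‖tc f (n + 1)‖ ^ 2) *
          ENNReal.ofReal (4 * t * Real.log (ρ / t) * t ^ (2 * n)) := by
    apply setLIntegral_congr_fun measurableSet_Ioo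
    intro t ht
    simp only
    unfold DD
    rw [← ENNReal.tsum_mul_left]
    congr 1
    funext n
    rw [← ENNReal.ofReal_mul (hw t ht), ← ENNReal.ofReal_mul (by positivity)]
    congr 1
    ring
  rw [e1, lintegral_tsum (fun n => by
    apply Measurable.aemeasurable
    apply Measurable.const_mul
    apply ENNReal.measurable_ofReal.comp
    fun_prop)]
  have e2 : ∀ n : ℕ, ∫⁻ t in Ioo 0 ρ, ENNReal.ofReal (((n:ℝ) + 1) ^ 2 * ‖tc f (n + 1)‖ ^ 2) *
      ENNReal.ofReal (4 * t * Real.log (ρ / t) * t ^ (2 * n)) = ENNReal.ofReal (‖tc f (n + 1)‖ ^ 2 * ρ ^ (2 * (n + 1))) := by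
    intro n
    have hm : Measurable fun t : ℝ => ENNReal.ofReal (4 * t * Real.log (ρ / t) * t ^ (2 * n)) := by fun_prop
    rw [lintegral_const_mul _ hm, int_log h0, ← ENNReal.ofReal_mul (by positivity)]
    congr 1
    have : ((n:ℝ) + 1) ≠ 0 := by positivity
    field_simp
    ring
  simp only [e2]
  have h := par hf h0 h1
  have h2 : HasSum (fun n : ℕ => ‖tc f (n + 1)‖ ^ 2 * ρ ^ (2 * (n + 1))) (mn f ρ) := by
    have h3 := (hasSum_nat_add_iff' (f := fun n : ℕ => ‖tc f n‖ ^ 2 * ρ ^ (2 * n)) 1).2 h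
    simpa [tc_zero, hf0] using h3
  rw [← ENNReal.ofReal_tsum_of_nonneg (fun n => by positivity) h2.summable, h2.tsum_eq]

theorem DD_pow_le {H : ℂ → ℂ} (hH : DifferentiableOn ℂ H (ball 0 1)) {t L : ℝ} (h0 : 0 < t) (h1 : t < 1)
    (hL : ∀ θ : ℝ, ‖H (circleMap 0 t θ)‖ ≤ L) (k : ℕ) :
    DD (fun x => H x ^ (k + 1)) t ≤ ENNReal.ofReal (((k:ℝ) + 1) ^ 2 * L ^ (2 * k)) * DD H t := by
  have hL0 : 0 ≤ L := (norm_nonneg _).trans (hL 0)
  have hp : DifferentiableOn ℂ (fun x => H x ^ (k + 1)) (ball 0 1) := hH.pow (k + 1)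
  rw [DD_eq hp h0 h1, DD_eq hH h0 h1, ← ENNReal.ofReal_mul (by positivity)]
  apply ENNReal.ofReal_le_ofReal
  apply mn_mono (hp.deriv isOpen_ball) (hH.deriv isOpen_ball) h0 h1
  intro θ
  have h2 : HasDerivAt H (deriv H (circleMap 0 t θ)) (circleMap 0 t θ) :=
    ((hH _ (cm_mem h0 h1 θ)).differentiableAt (isOpen_ball.mem_nhds (cm_mem h0 h1 θ))).hasDerivAt
  have h3 : deriv (fun x => H x ^ (k + 1)) (circleMap 0 t θ) = ((k + 1 : ℕ) : ℂ) * H (circleMap 0 t θ) ^ k * deriv H (circleMap 0 t θ) := by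
    have := (h2.fun_pow (k + 1)).deriv
    simpa using this
  rw [h3, norm_mul, norm_mul, norm_pow, Complex.norm_natCast, mul_pow, mul_pow, ← pow_mul, mul_comm k 2]
  push_cast
  gcongr
  exact hL θ

/-- the exponential mean -/
noncomputable def em (H : ℂ → ℂ) (c ρ : ℝ) : ℝ :=
  (2 * Real.pi)⁻¹ * ∫ θ in (0:ℝ)..(2 * Real.pi), Real.exp (c * ‖H (circleMap 0 ρ θ)‖ ^ 2)

theorem em_hasSum {H : ℂ → ℂ} (hH : DifferentiableOn ℂ H (ball 0 1)) {ρ c : ℝ} (h0 : 0 < ρ) (h1 : ρ < 1) :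
    HasSum (fun k : ℕ => c ^ (k + 1) / ((k + 1).factorial : ℝ) * mn (fun x => H x ^ (k + 1)) ρ) (em H c ρ - 1) := by
  have hpi := Real.pi_pos
  have hpi0 : (0:ℝ) ≤ 2 * Real.pi := by positivity
  have hc := cont_cm hH h0 h1
  obtain ⟨B, hB⟩ : ∃ B : ℝ, ∀ θ ∈ Icc (0:ℝ) (2 * Real.pi), ‖H (circleMap 0 ρ θ)‖ ≤ B := by
    obtain ⟨B, hB⟩ := isCompact_Icc.exists_bound_of_continuousOn (s := Icc (0:ℝ) (2 * Real.pi)) hc.continuousOn
    exact ⟨B, hB⟩
  have hB0 : 0 ≤ B := (norm_nonneg _).trans (hB 0 ⟨le_rfl, hpi0⟩)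
  have key : HasSum (fun k : ℕ => ∫ θ in (0:ℝ)..(2 * Real.pi), (c * ‖H (circleMap 0 ρ θ)‖ ^ 2) ^ k / (k.factorial : ℝ))
      (∫ θ in (0:ℝ)..(2 * Real.pi), Real.exp (c * ‖H (circleMap 0 ρ θ)‖ ^ 2)) := by
    apply intervalIntegral.hasSum_integral_of_dominated_convergence (bound := fun (k : ℕ) (_ : ℝ) => (|c| * B ^ 2) ^ k / (k.factorial : ℝ))
    · intro k
      exact (((continuous_const.mul (hc.norm.pow 2)).pow k).div_const _).aestronglyMeasurable
    · intro k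
      apply Eventually.of_forall
      intro θ hθ
      rw [uIoc_of_le hpi0] at hθ
      have h2 := hB θ ⟨hθ.1.le, hθ.2⟩
      rw [Real.norm_eq_abs, abs_div, abs_pow, abs_mul, abs_of_nonneg (sq_nonneg ‖H (circleMap 0 ρ θ)‖), Nat.abs_cast]
      gcongr
    · apply Eventually.of_forall
      intro θ _
      exact (NormedSpace.expSeries_div_hasSum_exp (𝔸 := ℝ) (|c| * B ^ 2)).summable
    · simp
    · apply Eventually.of_forall
      intro θ _
      have := NormedSpace.expSeries_div_hasSum_exp (𝔸 := ℝ) (c * ‖H (circleMap 0 ρ θ)‖ ^ 2)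
      rw [Real.exp_eq_exp_ℝ]
      exact this
  have h2 := key.mul_left (2 * Real.pi)⁻¹
  have h3 := (hasSum_nat_add_iff' 1).2 h2
  have e1 : (2 * Real.pi)⁻¹ * (∫ θ in (0:ℝ)..(2 * Real.pi), Real.exp (c * ‖H (circleMap 0 ρ θ)‖ ^ 2)) - ∑ i ∈ Finset.range 1, (2 * Real.pi)⁻¹ * ∫ θ in (0:ℝ)..(2 * Real.pi), (c * ‖H (circleMap 0 ρ θ)‖ ^ 2) ^ i / (i.factorial : ℝ) = em H c ρ - 1 := by
    unfold em
    simp
    field_simp
  rw [e1] at h3
  have e2 : (fun n : ℕ => (2 * Real.pi)⁻¹ * ∫ θ in (0:ℝ)..(2 * Real.pi), (c * ‖H (circleMap 0 ρ θ)‖ ^ 2) ^ (n + 1) / ((n + 1).factorial : ℝ))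
      = fun k : ℕ => c ^ (k + 1) / ((k + 1).factorial : ℝ) * mn (fun x => H x ^ (k + 1)) ρ := by
    funext k
    unfold mn
    rw [mul_left_comm]
    congr 1
    rw [← intervalIntegral.integral_const_mul]
    apply intervalIntegral.integral_congr
    intro θ _
    simp only
    rw [mul_pow, norm_pow]
    ring
  rw [e2] at h3
  exact h3

theorem ser (c L : ℝ) : HasSum (fun k : ℕ => c ^ (k + 1) / ((k + 1).factorial : ℝ) * (((k:ℝ) + 1) ^ 2 * L ^ (2 * k)))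
    (c * (1 + c * L ^ 2) * Real.exp (c * L ^ 2)) := by
  set y : ℝ := c * L ^ 2 with hy
  have h1 : HasSum (fun k : ℕ => y ^ k / (k.factorial : ℝ)) (Real.exp y) := by
    rw [Real.exp_eq_exp_ℝ]
    exact NormedSpace.expSeries_div_hasSum_exp (𝔸 := ℝ) y
  have h2 : HasSum (fun k : ℕ => (k:ℝ) * (y ^ k / (k.factorial : ℝ))) (y * Real.exp y) := by
    rw [← hasSum_nat_add_iff' 1]
    have h3 := h1.mul_left y
    have e : (fun k : ℕ => ((k + 1 : ℕ) : ℝ) * (y ^ (k + 1) / ((k + 1).factorial : ℝ))) = fun k : ℕ => y * (y ^ k / (k.factorial : ℝ)) := by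
      funext k
      rw [Nat.factorial_succ]
      push_cast
      have : ((k:ℝ) + 1) ≠ 0 := by positivity
      have : (k.factorial : ℝ) ≠ 0 := by positivity
      field_simp
      ring
    rw [e]
    simpa using h3
  have h4 := (h1.add h2).mul_left c
  have e : (fun k : ℕ => c ^ (k + 1) / ((k + 1).factorial : ℝ) * (((k:ℝ) + 1) ^ 2 * L ^ (2 * k))) = fun k : ℕ => c * (y ^ k / (k.factorial : ℝ) + (k:ℝ) * (y ^ k / (k.factorial : ℝ))) := by
    funext k
    rw [Nat.factorial_succ, hy]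
    push_cast
    have : ((k:ℝ) + 1) ≠ 0 := by positivity
    have : (k.factorial : ℝ) ≠ 0 := by positivity
    field_simp
    ring
  have e2 : c * (1 + y) * Real.exp y = c * (Real.exp y + y * Real.exp y) := by ring
  rw [e, e2]
  exact h4

/-- **The integral inequality.** -/
theorem main_lint {H : ℂ → ℂ} (hH : DifferentiableOn ℂ H (ball 0 1)) (hH0 : H 0 = 0) {ρ c : ℝ} (hc : 0 ≤ c)
    (h0 : 0 < ρ) (h1 : ρ < 1) {L : ℝ → ℝ} (hLm : Measurable L)
    (hL : ∀ t ∈ Ioo 0 ρ, ∀ θ : ℝ, ‖H (circleMap 0 t θ)‖ ≤ L t) :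
    ENNReal.ofReal (em H c ρ - 1) ≤ ∫⁻ t in Ioo 0 ρ, ENNReal.ofReal (4 * t * Real.log (ρ / t)) *
      (ENNReal.ofReal (c * (1 + c * L t ^ 2) * Real.exp (c * L t ^ 2)) * DD H t) := by
  have hs := em_hasSum hH h0 h1 (c := c)
  rw [← hs.tsum_eq, ENNReal.ofReal_tsum_of_nonneg (fun k => by
    have := mn_nonneg (fun x => H x ^ (k + 1)) ρ
    positivity) hs.summable]
  have e1 : ∀ k : ℕ, ENNReal.ofReal (c ^ (k + 1) / ((k + 1).factorial : ℝ) * mn (fun x => H x ^ (k + 1)) ρ)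
      ≤ ∫⁻ t in Ioo 0 ρ, ENNReal.ofReal (c ^ (k + 1) / ((k + 1).factorial : ℝ) * (((k:ℝ) + 1) ^ 2 * L t ^ (2 * k))) *
          (ENNReal.ofReal (4 * t * Real.log (ρ / t)) * DD H t) := by
    intro k
    have hp : DifferentiableOn ℂ (fun x => H x ^ (k + 1)) (ball 0 1) := hH.pow (k + 1)
    rw [ENNReal.ofReal_mul (by positivity), mn_lint hp (by simp [hH0]) h0 h1,
      ← lintegral_const_mul _ (by
        apply Measurable.mul
        · exact ENNReal.measurable_ofReal.comp (by fun_prop)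
        · exact measurable_DD _)]
    apply setLIntegral_mono' measurableSet_Ioo
    intro t ht
    have h2 := DD_pow_le hH ht.1 (ht.2.trans h1) (hL t ht) k
    calc ENNReal.ofReal (c ^ (k + 1) / ((k + 1).factorial : ℝ)) * (ENNReal.ofReal (4 * t * Real.log (ρ / t)) * DD (fun x => H x ^ (k + 1)) t)
        ≤ ENNReal.ofReal (c ^ (k + 1) / ((k + 1).factorial : ℝ)) * (ENNReal.ofReal (4 * t * Real.log (ρ / t)) *
            (ENNReal.ofReal (((k:ℝ) + 1) ^ 2 * L t ^ (2 * k)) * DD H t)) := by gcongr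
      _ = _ := by
          rw [ENNReal.ofReal_mul (p := c ^ (k + 1) / ((k + 1).factorial : ℝ)) (by positivity)]
          ring
  refine (ENNReal.tsum_le_tsum e1).trans (le_of_eq ?_)
  rw [← lintegral_tsum (fun k => by
    apply Measurable.aemeasurable
    apply Measurable.mul
    · exact ENNReal.measurable_ofReal.comp (by fun_prop)
    · apply Measurable.mul
      · exact ENNReal.measurable_ofReal.comp (by fun_prop)
      · exact measurable_DD _)]
  apply setLIntegral_congr_fun measurableSet_Ioo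
  intro t ht
  simp only
  rw [ENNReal.tsum_mul_right]
  have h3 := ser c (L t)
  have hLt : 0 ≤ L t := (norm_nonneg _).trans (hL t ht 0)
  rw [← ENNReal.ofReal_tsum_of_nonneg (fun k => by positivity) h3.summable, h3.tsum_eq]
  ring

end Pool.Agent.TH325.SI
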