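import Mathlib
import Pool.Agent.TH325.SI.B

/-! The fractional Sobolev bound. -/

set_option autoImplicit false
open Complex Filter Topology Set Metric MeasureTheory
open scoped ENNReal

namespace Pool.Agent.TH325.SI

open Pool.Agent.H713R2

noncomputable def la (t : ℝ) : ℝ := -Real.log (1 - t ^ 2)

theorem measurable_la : Measurable la := by
  unfold la
  fun_prop

theorem la_nonneg {t : ℝ} (h0 : 0 < t) (h1 : t < 1) : 0 ≤ la t := by
  unfold la
  have : Real.log (1 - t ^ 2) ≤ 0 := Real.log_nonpos (by nlinarith) (by nlinarith)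
  linarith

theorem la_mono {t ρ : ℝ} (h0 : 0 < t) (h1 : t < ρ) (h2 : ρ < 1) : la t ≤ la ρ := by
  unfold la
  apply neg_le_neg
  apply Real.log_le_log (by nlinarith)
  nlinarith

theorem la_ge {ρ : ℝ} (h0 : 1 / 2 ≤ ρ) (h1 : ρ < 1) : 10 / 38 ≤ la ρ := by
  unfold la
  have h2 : Real.log (1 - ρ ^ 2) ≤ Real.log (3 / 4) := Real.log_le_log (by nlinarith) (by nlinarith)
  have h3 : 5 * Real.log (3 / 4) ≤ - (2 * Real.log 2) := by
    have e1 : 5 * Real.log (3 / 4) = Real.log ((3 / 4) ^ 5) := by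
      rw [Real.log_pow]; norm_num
    have e2 : - (2 * Real.log 2) = Real.log (1 / 4) := by
      rw [one_div, Real.log_inv, show (4:ℝ) = 2 ^ 2 by norm_num, Real.log_pow]
      norm_num
    rw [e1, e2]
    apply Real.log_le_log (by norm_num)
    norm_num
  have h4 := Real.log_two_gt_d9
  linarith

/-- the weight -/
theorem weight {a t ρ : ℝ} (ha : 0 < a) (ha1 : a ≤ 1) (h0 : 0 < t) (h1 : t < ρ) (hρ : 1 / 2 ≤ ρ) (h2 : ρ < 1) :
    a / la ρ * (1 + a / la ρ * la t ^ 2) * Real.exp (a / la ρ * la t ^ 2) ≤ 24 / 5 * a * (1 - t ^ 2) ^ (-a) := by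
  have hl := la_ge hρ h2
  have hm := la_mono h0 h1 h2
  have ht := la_nonneg h0 (h1.trans h2)
  have hl0 : 0 < la ρ := by linarith
  have ht1 : 0 < 1 - t ^ 2 := by nlinarith
  have e1 : a / la ρ * la t ^ 2 ≤ a * la t := by
    rw [div_mul_eq_mul_div, div_le_iff₀ hl0]
    have : la t ^ 2 ≤ la t * la ρ := by rw [sq]; gcongr
    nlinarith
  have e2 : Real.exp (a / la ρ * la t ^ 2) ≤ (1 - t ^ 2) ^ (-a) := by
    rw [Real.rpow_def_of_pos ht1]
    apply Real.exp_le_exp.2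
    refine e1.trans (le_of_eq ?_)
    unfold la
    ring
  have e3 : a / la ρ ≤ 38 / 10 * a := by
    rw [div_le_iff₀ hl0]
    nlinarith
  have e4 : a / la ρ * (a / la ρ * la t ^ 2) ≤ a := by
    have h5 : a / la ρ * (a / la ρ * la t ^ 2) = a ^ 2 * (la t / la ρ) ^ 2 := by
      field_simp
    have h6 : la t / la ρ ≤ 1 := by
      rw [div_le_one hl0]; exact hm
    have h7 : 0 ≤ la t / la ρ := by positivity
    rw [h5]
    have h8 : (la t / la ρ) ^ 2 ≤ 1 := by nlinarith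
    have h9 : a ^ 2 ≤ a := by nlinarith
    nlinarith [sq_nonneg a]
  have e5 : a / la ρ * (1 + a / la ρ * la t ^ 2) ≤ 24 / 5 * a := by
    rw [mul_add, mul_one]
    linarith
  have e6 : 0 ≤ a / la ρ * (1 + a / la ρ * la t ^ 2) := by positivity
  calc _ ≤ 24 / 5 * a * (1 - t ^ 2) ^ (-a) := by gcongr
    _ = _ := rfl

theorem tlog {t ρ : ℝ} (h0 : 0 < t) (h1 : t < ρ) (h2 : ρ < 1) : t * Real.log (ρ / t) ≤ ρ * (1 - t ^ 2) := by
  have hρ : 0 < ρ := h0.trans h1
  have h3 : Real.log (ρ / t) ≤ ρ / t - 1 := Real.log_le_sub_one_of_pos (by positivity)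
  have h4 : t * Real.log (ρ / t) ≤ ρ - t := by
    calc t * Real.log (ρ / t) ≤ t * (ρ / t - 1) := by gcongr
      _ = ρ - t := by field_simp
  have h5 : ρ - t ≤ ρ * (1 - t ^ 2) := by nlinarith [mul_pos h0 hρ]
  linarith

/-- splitting of the weight -/
theorem split {a x N : ℝ} (ha1 : a ≤ 1) (ha : 0 < a) (hx : 0 < x) (hN : 1 ≤ N) :
    x ^ (-a) ≤ N ^ a + N ^ (a - 1) * x⁻¹ := by
  have hN0 : 0 < N := by linarith
  rcases le_or_gt (1 / N) x with h | h
  · have h1 : x ^ (-a) ≤ N ^ a := by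
      rw [Real.rpow_neg hx.le, ← Real.inv_rpow hx.le]
      apply Real.rpow_le_rpow (by positivity) _ ha.le
      rw [inv_le_comm₀ hx hN0]
      rwa [one_div] at h
    have h2 : 0 ≤ N ^ (a - 1) * x⁻¹ := by positivity
    linarith
  · have h1 : x ^ (-a) ≤ N ^ (a - 1) * x⁻¹ := by
      have e1 : x ^ (-a) = x ^ (1 - a) * x⁻¹ := by
        rw [← Real.rpow_neg_one x, ← Real.rpow_add hx]
        congr 1
        ring
      have e2 : x ^ (1 - a) ≤ N ^ (a - 1) := by
        have h3 : x ^ (1 - a) ≤ (1 / N) ^ (1 - a) := Real.rpow_le_rpow hx.le h.le (by linarith)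
        have h4 : (1 / N) ^ (1 - a) = N ^ (a - 1) := by
          rw [one_div, Real.inv_rpow hN0.le, ← Real.rpow_neg hN0.le]
          congr 1
          ring
        rwa [h4] at h3
      rw [e1]
      gcongr
    have h2 : 0 ≤ N ^ a := by positivity
    linarith

theorem int_pow {ρ : ℝ} (hρ : 0 < ρ) (n : ℕ) :
    ∫⁻ t in Ioo 0 ρ, ENNReal.ofReal (t ^ (2 * n)) = ENNReal.ofReal (ρ ^ (2 * n + 1) / (2 * (n:ℝ) + 1)) := by
  have hc : Continuous fun t : ℝ => t ^ (2 * n) := by fun_prop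
  have hI : IntegrableOn (fun t : ℝ => t ^ (2 * n)) (Ioo 0 ρ) :=
    (hc.continuousOn.integrableOn_compact isCompact_Icc).mono_set Ioo_subset_Icc_self
  rw [← ofReal_integral_eq_lintegral_ofReal hI (by
    rw [EventuallyLE, ae_restrict_iff' measurableSet_Ioo]
    exact Eventually.of_forall fun t ht => pow_nonneg ht.1.le _)]
  congr 1
  rw [← integral_Ioc_eq_integral_Ioo, ← intervalIntegral.integral_of_le hρ.le, integral_pow]
  push_cast
  simp

theorem wint {a ρ : ℝ} (ha : 0 < a) (ha1 : a ≤ 1) (h0 : 0 < ρ) (h1 : ρ < 1) (n : ℕ) :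
    ∫⁻ t in Ioo 0 ρ, ENNReal.ofReal (4 * t * Real.log (ρ / t) * (1 - t ^ 2) ^ (-a) * t ^ (2 * n)) ≤
      ENNReal.ofReal (5 * ((n:ℝ) + 1) ^ (a - 2) * ρ ^ (2 * n + 2)) := by
  set N : ℝ := (n:ℝ) + 1 with hN
  have hN1 : 1 ≤ N := by rw [hN]; have : (0:ℝ) ≤ n := Nat.cast_nonneg n; linarith
  have hN0 : 0 < N := by linarith
  have hp : ∀ t ∈ Ioo 0 ρ, ENNReal.ofReal (4 * t * Real.log (ρ / t) * (1 - t ^ 2) ^ (-a) * t ^ (2 * n)) ≤
      ENNReal.ofReal (N ^ a) * ENNReal.ofReal (4 * t * Real.log (ρ / t) * t ^ (2 * n)) +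
        ENNReal.ofReal (4 * ρ * N ^ (a - 1)) * ENNReal.ofReal (t ^ (2 * n)) := by
    intro t ht
    have ht0 := ht.1
    have hlog : 0 ≤ Real.log (ρ / t) := Real.log_nonneg ((one_le_div ht.1).2 ht.2.le)
    have htp : 0 ≤ t ^ (2 * n) := pow_nonneg ht0.le _
    have ht1 : 0 < 1 - t ^ 2 := by nlinarith [ht.2]
    rw [← ENNReal.ofReal_mul (by positivity), ← ENNReal.ofReal_mul (by positivity), ← ENNReal.ofReal_add (by positivity) (by positivity)]
    apply ENNReal.ofReal_le_ofReal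
    have h2 := split ha1 ha ht1 hN1
    have h3 := tlog ht0 ht.2 h1
    have h4 : t * Real.log (ρ / t) * (1 - t ^ 2)⁻¹ ≤ ρ := by
      rw [← div_eq_mul_inv, div_le_iff₀ ht1]
      exact h3
    calc 4 * t * Real.log (ρ / t) * (1 - t ^ 2) ^ (-a) * t ^ (2 * n)
        ≤ 4 * t * Real.log (ρ / t) * (N ^ a + N ^ (a - 1) * (1 - t ^ 2)⁻¹) * t ^ (2 * n) := by gcongr
      _ = N ^ a * (4 * t * Real.log (ρ / t) * t ^ (2 * n)) + 4 * (t * Real.log (ρ / t) * (1 - t ^ 2)⁻¹) * N ^ (a - 1) * t ^ (2 * n) := by ring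
      _ ≤ N ^ a * (4 * t * Real.log (ρ / t) * t ^ (2 * n)) + 4 * ρ * N ^ (a - 1) * t ^ (2 * n) := by gcongr
  have hm1 : Measurable fun t : ℝ => ENNReal.ofReal (4 * t * Real.log (ρ / t) * t ^ (2 * n)) := by fun_prop
  have hm2 : Measurable fun t : ℝ => ENNReal.ofReal (t ^ (2 * n)) := by fun_prop
  refine (setLIntegral_mono' measurableSet_Ioo hp).trans ?_
  rw [lintegral_add_left (hm1.const_mul _), lintegral_const_mul _ hm1, lintegral_const_mul _ hm2, int_log h0, int_pow h0,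
    ← ENNReal.ofReal_mul (by positivity), ← ENNReal.ofReal_mul (by positivity), ← ENNReal.ofReal_add (by positivity) (by positivity)]
  apply ENNReal.ofReal_le_ofReal
  rw [← hN]
  have e1 : N ^ a * (ρ ^ (2 * n + 2) / N ^ 2) = N ^ (a - 2) * ρ ^ (2 * n + 2) := by
    have : N ^ (a - 2) = N ^ a / N ^ 2 := by
      rw [Real.rpow_sub hN0]; norm_num
    rw [this]; ring
  have e2 : 4 * ρ * N ^ (a - 1) * (ρ ^ (2 * n + 1) / (2 * (n:ℝ) + 1)) ≤ 4 * (N ^ (a - 2) * ρ ^ (2 * n + 2)) := by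
    have e3 : N ^ (a - 1) = N ^ (a - 2) * N := by
      nth_rewrite 3 [← Real.rpow_one N]
      rw [← Real.rpow_add hN0]
      congr 1
      ring
    have e4 : N / (2 * (n:ℝ) + 1) ≤ 1 := by
      have : (0:ℝ) ≤ n := Nat.cast_nonneg n
      rw [div_le_one (by positivity), hN]
      linarith
    calc 4 * ρ * N ^ (a - 1) * (ρ ^ (2 * n + 1) / (2 * (n:ℝ) + 1))
        = 4 * (N ^ (a - 2) * ρ ^ (2 * n + 2)) * (N / (2 * (n:ℝ) + 1)) := by rw [e3]; ring
      _ ≤ 4 * (N ^ (a - 2) * ρ ^ (2 * n + 2)) * 1 := by gcongr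
      _ = _ := by ring
  rw [e1]
  linarith

/-- **Fractional Sobolev bound, disc version.** -/
theorem main1 {H : ℂ → ℂ} (hH : DifferentiableOn ℂ H (ball 0 1)) (hH0 : H 0 = 0)
    (hG : ∀ w ∈ ball (0:ℂ) 1, ‖H w‖ ≤ -Real.log (1 - ‖w‖ ^ 2)) {a ρ : ℝ} (ha : 0 < a) (ha1 : a ≤ 1)
    (hρ : 1 / 2 ≤ ρ) (h1 : ρ < 1) :
    Summable (fun n : ℕ => ((n:ℝ) + 1) ^ a * ‖tc H (n + 1)‖ ^ 2 * ρ ^ (2 * (n + 1))) ∧
    em H (a / la ρ) ρ ≤ 1 + 24 * a * ∑' n : ℕ, ((n:ℝ) + 1) ^ a * ‖tc H (n + 1)‖ ^ 2 * ρ ^ (2 * (n + 1)) := by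
  have h0 : 0 < ρ := by linarith
  have hl := la_ge hρ h1
  have hl0 : 0 < la ρ := by linarith
  have hsum : Summable (fun n : ℕ => ((n:ℝ) + 1) ^ a * ‖tc H (n + 1)‖ ^ 2 * ρ ^ (2 * (n + 1))) := by
    have h2 := ((par_deriv hH h0 h1).summable).mul_left (ρ ^ 2)
    refine Summable.of_nonneg_of_le (fun n => by positivity) (fun n => ?_) h2
    have h3 : ((n:ℝ) + 1) ^ a ≤ ((n:ℝ) + 1) ^ 2 := by
      rw [← Real.rpow_natCast ((n:ℝ) + 1) 2]
      apply Real.rpow_le_rpow_of_exponent_le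
      · have : (0:ℝ) ≤ n := Nat.cast_nonneg n; linarith
      · push_cast; linarith
    calc ((n:ℝ) + 1) ^ a * ‖tc H (n + 1)‖ ^ 2 * ρ ^ (2 * (n + 1)) ≤ ((n:ℝ) + 1) ^ 2 * ‖tc H (n + 1)‖ ^ 2 * ρ ^ (2 * (n + 1)) := by gcongr
      _ = _ := by ring
  refine ⟨hsum, ?_⟩
  have hmain := main_lint hH hH0 (c := a / la ρ) (by positivity) h0 h1 measurable_la (fun t ht θ => by
    have := hG _ (cm_mem ht.1 (ht.2.trans h1) θ)
    rw [norm_cm ht.1] at this
    exact this)
  have hle : ∫⁻ t in Ioo 0 ρ, ENNReal.ofReal (4 * t * Real.log (ρ / t)) *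
      (ENNReal.ofReal (a / la ρ * (1 + a / la ρ * la t ^ 2) * Real.exp (a / la ρ * la t ^ 2)) * DD H t) ≤
      ∑' n : ℕ, ENNReal.ofReal (24 * a * (((n:ℝ) + 1) ^ a * ‖tc H (n + 1)‖ ^ 2 * ρ ^ (2 * (n + 1)))) := by
    calc _ ≤ ∫⁻ t in Ioo 0 ρ, ∑' n : ℕ, ENNReal.ofReal (24 / 5 * a * (((n:ℝ) + 1) ^ 2 * ‖tc H (n + 1)‖ ^ 2)) *
          ENNReal.ofReal (4 * t * Real.log (ρ / t) * (1 - t ^ 2) ^ (-a) * t ^ (2 * n)) := by
          apply setLIntegral_mono' measurableSet_Ioo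
          intro t ht
          have ht0 := ht.1
          have hlog : 0 ≤ Real.log (ρ / t) := Real.log_nonneg ((one_le_div ht.1).2 ht.2.le)
          have ht1 : 0 < 1 - t ^ 2 := by nlinarith [ht.2]
          have hw := weight ha ha1 ht0 ht.2 hρ h1
          calc ENNReal.ofReal (4 * t * Real.log (ρ / t)) *
                (ENNReal.ofReal (a / la ρ * (1 + a / la ρ * la t ^ 2) * Real.exp (a / la ρ * la t ^ 2)) * DD H t)
              ≤ ENNReal.ofReal (4 * t * Real.log (ρ / t)) * (ENNReal.ofReal (24 / 5 * a * (1 - t ^ 2) ^ (-a)) * DD H t) := by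
                gcongr
            _ = ENNReal.ofReal (4 * t * Real.log (ρ / t) * (24 / 5 * a * (1 - t ^ 2) ^ (-a))) * DD H t := by
                rw [← mul_assoc, ← ENNReal.ofReal_mul (by positivity)]
            _ = _ := by
                unfold DD
                rw [← ENNReal.tsum_mul_left]
                congr 1
                funext n
                rw [← ENNReal.ofReal_mul (by positivity), ← ENNReal.ofReal_mul (by positivity)]
                congr 1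
                ring
      _ = ∑' n : ℕ, ENNReal.ofReal (24 / 5 * a * (((n:ℝ) + 1) ^ 2 * ‖tc H (n + 1)‖ ^ 2)) *
          ∫⁻ t in Ioo 0 ρ, ENNReal.ofReal (4 * t * Real.log (ρ / t) * (1 - t ^ 2) ^ (-a) * t ^ (2 * n)) := by
          have hm : ∀ n : ℕ, Measurable fun t : ℝ => ENNReal.ofReal (4 * t * Real.log (ρ / t) * (1 - t ^ 2) ^ (-a) * t ^ (2 * n)) := by
            intro n
            fun_prop
          rw [lintegral_tsum (fun n => ((hm n).const_mul _).aemeasurable)]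
          congr 1
          funext n
          rw [lintegral_const_mul _ (hm n)]
      _ ≤ _ := by
          apply ENNReal.tsum_le_tsum
          intro n
          calc _ ≤ ENNReal.ofReal (24 / 5 * a * (((n:ℝ) + 1) ^ 2 * ‖tc H (n + 1)‖ ^ 2)) *
                ENNReal.ofReal (5 * ((n:ℝ) + 1) ^ (a - 2) * ρ ^ (2 * n + 2)) := by
                gcongr
                exact wint ha ha1 h0 h1 n
            _ = _ := by
                rw [← ENNReal.ofReal_mul (by positivity)]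
                congr 1
                have hN0 : (0:ℝ) < (n:ℝ) + 1 := by positivity
                have : ((n:ℝ) + 1) ^ (a - 2) = ((n:ℝ) + 1) ^ a / ((n:ℝ) + 1) ^ 2 := by
                  rw [Real.rpow_sub hN0]; norm_num
                rw [this]
                field_simp
                ring
  have hfin := hmain.trans hle
  rw [← ENNReal.ofReal_tsum_of_nonneg (fun n => by positivity) (hsum.mul_left _), tsum_mul_left,
    ENNReal.ofReal_le_ofReal_iff (by
      have : 0 ≤ ∑' n : ℕ, ((n:ℝ) + 1) ^ a * ‖tc H (n + 1)‖ ^ 2 * ρ ^ (2 * (n + 1)) := tsum_nonneg fun n => by positivity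
      positivity)] at hfin
  linarith

end Pool.Agent.TH325.SI
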