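import Mathlib
import Pool.Agent.TH325.SI.C

/-! The kernel inequality. -/

set_option autoImplicit false
open Complex Filter Topology Set Metric MeasureTheory
open scoped ENNReal

namespace Pool.Agent.TH325.SI

theorem la_zero : la 0 = 0 := by simp [la]

theorem la_deriv {t : ℝ} (h0 : 0 ≤ t) (h1 : t < 1) : HasDerivAt la (2 * t / (1 - t ^ 2)) t := by
  have ht : 1 - t ^ 2 ≠ 0 := by nlinarith
  have h2 : HasDerivAt (fun t : ℝ => 1 - t ^ 2) (-(2 * t)) t := by
    have := (hasDerivAt_pow 2 t).const_sub 1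
    simpa using this
  have h3 := (h2.log ht).fun_neg
  refine h3.congr_deriv ?_
  field_simp

theorem la_cont : ContinuousOn la (Ico 0 1) := fun t ht =>
  (la_deriv ht.1 ht.2).continuousAt.continuousWithinAt

theorem la_mono' {t ρ : ℝ} (h0 : 0 ≤ t) (h1 : t ≤ ρ) (h2 : ρ < 1) : la t ≤ la ρ := by
  unfold la
  apply neg_le_neg
  apply Real.log_le_log (by nlinarith)
  nlinarith

/-- **The kernel inequality.** -/
theorem kernel {s ρ : ℝ} (hs : 0 ≤ s) (hsρ : s < ρ) (hρ : ρ < 1) (m : ℕ) :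
    ∫⁻ t in Ioo s ρ, ENNReal.ofReal (4 * t * Real.log (ρ / t) * (((m:ℝ) + 1) / (1 - t ^ 2) ^ 2 * (la t - la s) ^ m)) ≤
      ENNReal.ofReal ((la ρ - la s) ^ (m + 1)) := by
  set w : ℝ → ℝ := fun t => ((m:ℝ) + 1) * (la t - la s) ^ m with hw
  set w' : ℝ → ℝ := fun t => ((m:ℝ) + 1) * ((m:ℝ) * (la t - la s) ^ (m - 1) * (2 * t / (1 - t ^ 2))) with hw'
  set J : ℝ → ℝ := fun t => (t * Real.log ρ - t * Real.log t) * (2 * t / (1 - t ^ 2)) * w t + (la t - la s) ^ (m + 1) with hJ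
  set J' : ℝ → ℝ := fun t => Real.log (ρ / t) * (4 * t / (1 - t ^ 2) ^ 2) * w t + Real.log (ρ / t) * (2 * t ^ 2 / (1 - t ^ 2)) * w' t with hJ'
  have hρ0 : 0 < ρ := lt_of_le_of_lt hs hsρ
  have hsub : Icc s ρ ⊆ Ico 0 1 := fun t ht => ⟨hs.trans ht.1, lt_of_le_of_lt ht.2 hρ⟩
  have hlc : ContinuousOn la (Icc s ρ) := la_cont.mono hsub
  have hwc : ContinuousOn w (Icc s ρ) := by
    simp only [hw]
    exact continuousOn_const.mul ((hlc.sub continuousOn_const).pow m)
  have hne : ∀ t ∈ Icc s ρ, 1 - t ^ 2 ≠ 0 := fun t ht => by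
    have h1 := (hsub ht).1
    have h2 := (hsub ht).2
    nlinarith
  have hJc : ContinuousOn J (Icc s ρ) := by
    have h1 := Real.continuous_mul_log
    have h2 : ContinuousOn (fun t : ℝ => (t * Real.log ρ - t * Real.log t) * (2 * t / (1 - t ^ 2))) (Icc s ρ) := by
      apply ContinuousOn.mul
      · fun_prop
      · exact ContinuousOn.div (by fun_prop) (by fun_prop) hne
    exact (h2.mul hwc).add ((hlc.sub continuousOn_const).pow (m + 1))
  have hd : ∀ t ∈ Ioo s ρ, HasDerivAt J (J' t) t := by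
    intro t ht
    have ht0 : 0 < t := lt_of_le_of_lt hs ht.1
    have ht1 : t < 1 := ht.2.trans hρ
    have hn : 1 - t ^ 2 ≠ 0 := hne t ⟨ht.1.le, ht.2.le⟩
    have h1 := Real.hasDerivAt_mul_log ht0.ne'
    have h2 : HasDerivAt (fun t : ℝ => t * Real.log ρ) (Real.log ρ) t := by
      simpa using (hasDerivAt_id t).mul_const (Real.log ρ)
    have h3 := la_deriv ht0.le ht1
    have h4 : HasDerivAt (fun t => la t - la s) (2 * t / (1 - t ^ 2)) t := h3.sub_const _
    have h5 : HasDerivAt w (w' t) t := by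
      have := (h4.fun_pow m).const_mul ((m:ℝ) + 1)
      exact this
    have h6 : HasDerivAt (fun t => (la t - la s) ^ (m + 1)) (((m + 1 : ℕ) : ℝ) * (la t - la s) ^ m * (2 * t / (1 - t ^ 2))) t := by
      have := h4.fun_pow (m + 1)
      simpa using this
    have h7 : HasDerivAt (fun t : ℝ => 2 * t / (1 - t ^ 2)) ((2 * (1 - t ^ 2) - 2 * t * (-(2 * t))) / (1 - t ^ 2) ^ 2) t := by
      have e1 : HasDerivAt (fun t : ℝ => 2 * t) 2 t := by
        simpa using (hasDerivAt_id t).const_mul (2:ℝ)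
      have e2 : HasDerivAt (fun t : ℝ => 1 - t ^ 2) (-(2 * t)) t := by
        have := (hasDerivAt_pow 2 t).const_sub 1
        simpa using this
      exact e1.fun_div e2 hn
    have h8 := (((h2.fun_sub h1).fun_mul h7).fun_mul h5).fun_add h6
    refine h8.congr_deriv ?_
    simp only [hJ', hw]
    rw [Real.log_div hρ0.ne' ht0.ne']
    push_cast
    field_simp
    ring
  have hpos1 : ∀ t ∈ Ioo s ρ, 0 ≤ Real.log (ρ / t) ∧ 0 ≤ la t - la s ∧ 0 < 1 - t ^ 2 ∧ 0 < t := by
    intro t ht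
    have ht0 : 0 < t := lt_of_le_of_lt hs ht.1
    have ht1 : t < 1 := ht.2.trans hρ
    refine ⟨Real.log_nonneg ((one_le_div ht0).2 ht.2.le), ?_, by nlinarith, ht0⟩
    linarith [la_mono' hs ht.1.le ht1]
  have hpos : ∀ t ∈ Ioo s ρ, 0 ≤ J' t := by
    intro t ht
    obtain ⟨h1, h2, h3, h4⟩ := hpos1 t ht
    simp only [hJ', hw, hw']
    positivity
  have hint := intervalIntegral.integrableOn_deriv_of_nonneg hJc hd hpos
  have hI : IntervalIntegrable J' volume s ρ := by
    rw [intervalIntegrable_iff_integrableOn_Ioc_of_le hsρ.le]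
    exact hint
  have hftc := intervalIntegral.integral_eq_sub_of_hasDerivAt_of_le hsρ.le hJc hd hI
  have h6 : ∫⁻ t in Ioo s ρ, ENNReal.ofReal (J' t) = ENNReal.ofReal (∫ t in Ioo s ρ, J' t) := by
    rw [ofReal_integral_eq_lintegral_ofReal (hint.mono_set Ioo_subset_Ioc_self)]
    rw [EventuallyLE, ae_restrict_iff' measurableSet_Ioo]
    exact Eventually.of_forall hpos
  have h7 : ∫⁻ t in Ioo s ρ, ENNReal.ofReal (4 * t * Real.log (ρ / t) * (((m:ℝ) + 1) / (1 - t ^ 2) ^ 2 * (la t - la s) ^ m)) ≤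
      ∫⁻ t in Ioo s ρ, ENNReal.ofReal (J' t) := by
    apply setLIntegral_mono' measurableSet_Ioo
    intro t ht
    apply ENNReal.ofReal_le_ofReal
    obtain ⟨h1, h2, h3, h4⟩ := hpos1 t ht
    have h5 : 0 ≤ Real.log (ρ / t) * (2 * t ^ 2 / (1 - t ^ 2)) * w' t := by
      simp only [hw']
      positivity
    have h8 : 4 * t * Real.log (ρ / t) * (((m:ℝ) + 1) / (1 - t ^ 2) ^ 2 * (la t - la s) ^ m) = Real.log (ρ / t) * (4 * t / (1 - t ^ 2) ^ 2) * w t := by
      simp only [hw]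
      ring
    simp only [hJ']
    linarith
  refine h7.trans ?_
  rw [h6]
  apply ENNReal.ofReal_le_ofReal
  rw [← integral_Ioc_eq_integral_Ioo, ← intervalIntegral.integral_of_le hsρ.le, hftc]
  have e1 : J ρ = (la ρ - la s) ^ (m + 1) := by
    simp only [hJ]
    ring
  have e2 : 0 ≤ J s := by
    have h8 : 0 ≤ s * Real.log ρ - s * Real.log s := by
      rw [← mul_sub]
      rcases hs.eq_or_lt with h | h
      · rw [← h]; simp
      · have : Real.log s ≤ Real.log ρ := Real.log_le_log h hsρ.le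
        apply mul_nonneg hs
        linarith
    have h9 : 0 < 1 - s ^ 2 := by
      have h1 := (hsub ⟨le_rfl, hsρ.le⟩).1
      have h2 := (hsub ⟨le_rfl, hsρ.le⟩).2
      nlinarith
    have h10 : (0:ℝ) ≤ la s - la s := by simp
    simp only [hJ, hw]
    positivity
  rw [e1]
  linarith

end Pool.Agent.TH325.SI
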