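import Mathlib
import Pool.Agent.TH325.SI.D

/-! Induction over the moments. -/

set_option autoImplicit false
open Complex Filter Topology Set Metric MeasureTheory
open scoped ENNReal

namespace Pool.Agent.TH325.SI

open Pool.Agent.H713R2

/-- the source terms -/
noncomputable def SS (j : ℕ) (s : ℝ) : ℝ := ((j:ℝ) + 1) / (j.factorial : ℝ) * la s ^ (2 * j)

theorem SS_nonneg (j : ℕ) (s : ℝ) : 0 ≤ SS j s := by
  unfold SS
  have : 0 ≤ la s ^ (2 * j) := by rw [pow_mul]; positivity
  positivity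

theorem measurable_SS (j : ℕ) : Measurable (SS j) := by
  unfold SS
  have := measurable_la
  fun_prop

/-- the propagated source -/
noncomputable def TT (β : ℝ) (k : ℕ) (s ρ : ℝ) : ℝ≥0∞ :=
  ∑' j : ℕ, ENNReal.ofReal ((k.choose (j + 1) : ℝ) * (β ^ 2 * (la ρ - la s)) ^ (k - 1 - j) * SS j s)

noncomputable def UU (H : ℂ → ℂ) (k : ℕ) (t : ℝ) : ℝ≥0∞ := ENNReal.ofReal (mn (fun x => H x ^ k) t / (k.factorial : ℝ))

theorem Kj (β : ℝ) (k j : ℕ) {s ρ : ℝ} (hs : 0 ≤ s) (hsρ : s < ρ) (hρ : ρ < 1) :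
    (∫⁻ t in Ioo s ρ, ENNReal.ofReal (4 * t * Real.log (ρ / t) * (((k:ℝ) + 1) * β ^ 2 / (1 - t ^ 2) ^ 2)) *
        ENNReal.ofReal ((k.choose (j + 1) : ℝ) * (β ^ 2 * (la t - la s)) ^ (k - 1 - j) * SS j s)) +
      (if j = k then ENNReal.ofReal (SS k s) else 0) ≤
      ENNReal.ofReal (((k + 1).choose (j + 1) : ℝ) * (β ^ 2 * (la ρ - la s)) ^ (k + 1 - 1 - j) * SS j s) := by
  have hSS := SS_nonneg j s
  have hδ : 0 ≤ la ρ - la s := by linarith [la_mono' hs hsρ.le hρ]
  rcases lt_trichotomy j k with h | h | h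
  · obtain ⟨m, rfl⟩ : ∃ m, k = j + 1 + m := ⟨k - (j + 1), by omega⟩
    have hjk : ¬ (j = j + 1 + m) := by omega
    rw [if_neg hjk, add_zero]
    have e0 : j + 1 + m - 1 - j = m := by omega
    have e0' : j + 1 + m + 1 - 1 - j = m + 1 := by omega
    rw [e0, e0']
    set cst : ℝ := ((j + 1 + m).choose (j + 1) : ℝ) * (((j + 1 + m : ℕ) : ℝ) + 1) / ((m:ℝ) + 1) * (β ^ 2) ^ (m + 1) * SS j s with hcst
    have hc0 : 0 ≤ cst := by positivity
    have e1 : ∫⁻ t in Ioo s ρ, ENNReal.ofReal (4 * t * Real.log (ρ / t) * ((((j + 1 + m : ℕ):ℝ) + 1) * β ^ 2 / (1 - t ^ 2) ^ 2)) *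
        ENNReal.ofReal (((j + 1 + m).choose (j + 1) : ℝ) * (β ^ 2 * (la t - la s)) ^ m * SS j s)
        = ∫⁻ t in Ioo s ρ, ENNReal.ofReal cst * ENNReal.ofReal (4 * t * Real.log (ρ / t) * (((m:ℝ) + 1) / (1 - t ^ 2) ^ 2 * (la t - la s) ^ m)) := by
      apply setLIntegral_congr_fun measurableSet_Ioo
      intro t ht
      have ht0 : 0 < t := lt_of_le_of_lt hs ht.1
      have ht1 : t < 1 := ht.2.trans hρ
      have hlog : 0 ≤ Real.log (ρ / t) := Real.log_nonneg ((one_le_div ht0).2 ht.2.le)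
      have hla : 0 ≤ la t - la s := by linarith [la_mono' hs ht.1.le ht1]
      simp only
      rw [← ENNReal.ofReal_mul (by positivity), ← ENNReal.ofReal_mul hc0]
      congr 1
      rw [hcst, mul_pow]
      have : (m:ℝ) + 1 ≠ 0 := by positivity
      field_simp
      ring
    rw [e1, lintegral_const_mul _ (by have := measurable_la; fun_prop)]
    refine (mul_le_mul_right (kernel hs hsρ hρ m) _).trans (le_of_eq ?_)
    rw [← ENNReal.ofReal_mul hc0]
    congr 1
    have e2 : ((j + 1 + m).choose (j + 1) : ℝ) * (((j + 1 + m : ℕ) : ℝ) + 1) = ((j + 1 + m + 1).choose (j + 1) : ℝ) * ((m:ℝ) + 1) := by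
      have h3 := Nat.choose_mul_succ_eq (j + 1 + m) (j + 1)
      have h4 : j + 1 + m + 1 - (j + 1) = m + 1 := by omega
      rw [h4] at h3
      exact_mod_cast h3
    rw [hcst, e2, mul_pow]
    have : (m:ℝ) + 1 ≠ 0 := by positivity
    field_simp
  · subst h
    have e0 : j + 1 - 1 - j = 0 := by omega
    rw [e0]
    simp
  · have h1 : k.choose (j + 1) = 0 := Nat.choose_eq_zero_of_lt (by omega)
    have h2 : ¬ (j = k) := by omega
    rw [h1, if_neg h2]
    simp

theorem TT_step (β : ℝ) (k : ℕ) {s ρ : ℝ} (hs : 0 ≤ s) (hsρ : s < ρ) (hρ : ρ < 1) :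
    (∫⁻ t in Ioo s ρ, ENNReal.ofReal (4 * t * Real.log (ρ / t) * (((k:ℝ) + 1) * β ^ 2 / (1 - t ^ 2) ^ 2)) * TT β k s t) +
      ENNReal.ofReal (SS k s) ≤ TT β (k + 1) s ρ := by
  have h1 : (∫⁻ t in Ioo s ρ, ENNReal.ofReal (4 * t * Real.log (ρ / t) * (((k:ℝ) + 1) * β ^ 2 / (1 - t ^ 2) ^ 2)) * TT β k s t)
      = ∑' j : ℕ, ∫⁻ t in Ioo s ρ, ENNReal.ofReal (4 * t * Real.log (ρ / t) * (((k:ℝ) + 1) * β ^ 2 / (1 - t ^ 2) ^ 2)) *
        ENNReal.ofReal ((k.choose (j + 1) : ℝ) * (β ^ 2 * (la t - la s)) ^ (k - 1 - j) * SS j s) := by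
    rw [← lintegral_tsum (fun j => by
      apply Measurable.aemeasurable
      have := measurable_la
      fun_prop)]
    congr 1
    funext t
    unfold TT
    rw [ENNReal.tsum_mul_left]
  have h2 : ENNReal.ofReal (SS k s) = ∑' j : ℕ, (if j = k then ENNReal.ofReal (SS k s) else 0) := by
    rw [tsum_ite_eq]
  rw [h1, h2, ← ENNReal.tsum_add]
  unfold TT
  exact ENNReal.tsum_le_tsum fun j => Kj β k j hs hsρ hρ

theorem measurable_TT (β : ℝ) (k : ℕ) : Measurable fun p : ℝ × ℝ => TT β k p.2 p.1 := by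
  unfold TT
  apply Measurable.tsum
  intro j
  have h1 := measurable_la
  have h2 := measurable_SS j
  fun_prop

/-- Tonelli on the triangle. -/
theorem swap_ineq (g Bd : ℝ → ℝ≥0∞) (T : ℝ → ℝ → ℝ≥0∞) (hg : Measurable g) (hBm : Measurable Bd)
    (hT : Measurable fun p : ℝ × ℝ => T p.2 p.1) (ρ : ℝ) :
    ∫⁻ t in Ioo 0 ρ, g t * (∫⁻ s in Ioo 0 t, ENNReal.ofReal (4 * s * Real.log (t / s)) * (Bd s * T s t)) ≤
      ∫⁻ s in Ioo 0 ρ, ENNReal.ofReal (4 * s * Real.log (ρ / s)) * (Bd s * ∫⁻ t in Ioo s ρ, g t * T s t) := by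
  have hk : Measurable fun s : ℝ => ENNReal.ofReal (4 * s * Real.log (ρ / s)) := by fun_prop
  have hkt : ∀ t : ℝ, Measurable fun s : ℝ => ENNReal.ofReal (4 * s * Real.log (t / s)) := by
    intro t; fun_prop
  have hTs : ∀ t : ℝ, Measurable fun s : ℝ => T s t := fun t => hT.comp (measurable_const.prodMk measurable_id)
  have hTt : ∀ s : ℝ, Measurable fun t : ℝ => T s t := fun s => hT.comp (measurable_id.prodMk measurable_const)
  set F : ℝ → ℝ → ℝ≥0∞ := fun t s => g t * (ENNReal.ofReal (4 * s * Real.log (ρ / s)) * (Bd s * T s t)) with hF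
  have hFm : Measurable (Function.uncurry F) := by
    have e : Function.uncurry F = fun p : ℝ × ℝ => g p.1 * (ENNReal.ofReal (4 * p.2 * Real.log (ρ / p.2)) * (Bd p.2 * T p.2 p.1)) := rfl
    rw [e]
    exact (hg.comp measurable_fst).mul ((hk.comp measurable_snd).mul ((hBm.comp measurable_snd).mul hT))
  set E : Set (ℝ × ℝ) := {p | 0 < p.2 ∧ p.2 < p.1 ∧ p.1 < ρ} with hE
  have hEm : MeasurableSet E :=
    (measurableSet_lt measurable_const measurable_snd).inter
      ((measurableSet_lt measurable_snd measurable_fst).inter (measurableSet_lt measurable_fst measurable_const))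
  set F' : ℝ → ℝ → ℝ≥0∞ := fun t s => E.indicator (Function.uncurry F) (t, s) with hF'
  have hF'm : Measurable (Function.uncurry F') := by
    have : Function.uncurry F' = E.indicator (Function.uncurry F) := by
      funext p
      rfl
    rw [this]
    exact hFm.indicator hEm
  have s1 : ∫⁻ t in Ioo 0 ρ, g t * (∫⁻ s in Ioo 0 t, ENNReal.ofReal (4 * s * Real.log (t / s)) * (Bd s * T s t)) ≤
      ∫⁻ t, ∫⁻ s, F' t s := by
    rw [← lintegral_indicator measurableSet_Ioo]
    apply lintegral_mono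
    intro t
    by_cases ht : t ∈ Ioo 0 ρ
    · simp only [indicator_of_mem ht]
      have ht0 := ht.1
      have hm4 : Measurable fun s : ℝ => ENNReal.ofReal (4 * s * Real.log (t / s)) * (Bd s * T s t) := (hkt t).mul (hBm.mul (hTs t))
      rw [← lintegral_const_mul _ hm4, ← lintegral_indicator measurableSet_Ioo]
      apply lintegral_mono
      intro s
      by_cases hs : s ∈ Ioo 0 t
      · have hmem : ((t, s) : ℝ × ℝ) ∈ E := ⟨hs.1, hs.2, ht.2⟩
        have hs0 := hs.1
        have h3 : Real.log (t / s) ≤ Real.log (ρ / s) := by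
          apply Real.log_le_log (by positivity)
          exact div_le_div_of_nonneg_right ht.2.le hs0.le
        have h4 : ENNReal.ofReal (4 * s * Real.log (t / s)) ≤ ENNReal.ofReal (4 * s * Real.log (ρ / s)) := by
          apply ENNReal.ofReal_le_ofReal
          exact mul_le_mul_of_nonneg_left h3 (by positivity)
        have e1 : F' t s = g t * (ENNReal.ofReal (4 * s * Real.log (ρ / s)) * (Bd s * T s t)) := by
          show E.indicator (Function.uncurry F) (t, s) = _
          rw [indicator_of_mem hmem]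
          rfl
        rw [indicator_of_mem hs, e1]
        exact mul_le_mul_right (mul_le_mul_left h4 _) _
      · rw [indicator_of_notMem hs]
        exact zero_le
    · rw [indicator_of_notMem ht]
      exact zero_le
  refine s1.trans ?_
  rw [lintegral_lintegral_swap hF'm.aemeasurable, ← lintegral_indicator measurableSet_Ioo]
  apply lintegral_mono
  intro s
  by_cases hs : s ∈ Ioo 0 ρ
  · have hm4 : Measurable fun t : ℝ => g t * T s t := hg.mul (hTt s)
    rw [indicator_of_mem hs, ← mul_assoc, ← lintegral_const_mul _ hm4, ← lintegral_indicator measurableSet_Ioo]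
    apply lintegral_mono
    intro t
    by_cases ht : t ∈ Ioo s ρ
    · have hmem : ((t, s) : ℝ × ℝ) ∈ E := ⟨hs.1, ht.1, ht.2⟩
      have e1 : F' t s = g t * (ENNReal.ofReal (4 * s * Real.log (ρ / s)) * (Bd s * T s t)) := by
        show E.indicator (Function.uncurry F) (t, s) = _
        rw [indicator_of_mem hmem]
        rfl
      rw [indicator_of_mem ht]
      show F' t s ≤ _
      rw [e1]
      apply le_of_eq
      ring
    · have hmem : ((t, s) : ℝ × ℝ) ∉ E := fun h => ht ⟨h.2.1, h.2.2⟩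
      have e1 : F' t s = 0 := by
        show E.indicator (Function.uncurry F) (t, s) = _
        rw [indicator_of_notMem hmem]
      show F' t s ≤ _
      rw [e1]
      exact zero_le
  · have e1 : ∀ t, F' t s = 0 := by
      intro t
      have hmem : ((t, s) : ℝ × ℝ) ∉ E := fun h => hs ⟨h.1, h.2.1.trans h.2.2⟩
      show E.indicator (Function.uncurry F) (t, s) = _
      rw [indicator_of_notMem hmem]
    simp only [e1, lintegral_zero]
    exact zero_le

/-- **Induction over the moments.** -/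
theorem moments {H : ℂ → ℂ} (hH : DifferentiableOn ℂ H (ball 0 1)) (hH0 : H 0 = 0) (β : ℝ) {Bd : ℝ → ℝ≥0∞} (hBm : Measurable Bd)
    (hB : ∀ t : ℝ, 0 < t → t < 1 → ∀ k : ℕ, DD (fun x => H x ^ (k + 1)) t ≤
      ENNReal.ofReal (((k:ℝ) + 1) ^ 2 * β ^ 2 / (1 - t ^ 2) ^ 2) * ENNReal.ofReal (mn (fun x => H x ^ k) t) +
        ENNReal.ofReal (((k:ℝ) + 1) ^ 2 * la t ^ (2 * k)) * Bd t) (k : ℕ) :
    ∀ ρ : ℝ, 0 < ρ → ρ < 1 → UU H k ρ ≤ ENNReal.ofReal ((β ^ 2 * la ρ) ^ k) +
      ∫⁻ s in Ioo 0 ρ, ENNReal.ofReal (4 * s * Real.log (ρ / s)) * (Bd s * TT β k s ρ) := by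
  induction k with
  | zero =>
    intro ρ h0 h1
    have h2 : mn (fun x => H x ^ 0) ρ = 1 := by
      unfold mn
      simp
      field_simp
    unfold UU
    rw [h2]
    simp
  | succ k ih =>
    intro ρ h0 h1
    have hp : DifferentiableOn ℂ (fun x => H x ^ (k + 1)) (ball 0 1) := hH.pow (k + 1)
    have hml := measurable_la
    have hmS := measurable_SS k
    have hβp : 0 ≤ β ^ (2 * k + 2) := by
      have : β ^ (2 * k + 2) = (β ^ (k + 1)) ^ 2 := by rw [← pow_mul]; ring_nf
      rw [this]; positivity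
    -- the recursion
    have hrec : UU H (k + 1) ρ ≤ ∫⁻ t in Ioo 0 ρ,
        (ENNReal.ofReal (β ^ (2 * k + 2)) * ENNReal.ofReal (4 * t * Real.log (ρ / t) * (((k:ℝ) + 1) / (1 - t ^ 2) ^ 2 * (la t - la 0) ^ k)) +
        (ENNReal.ofReal (4 * t * Real.log (ρ / t) * (((k:ℝ) + 1) * β ^ 2 / (1 - t ^ 2) ^ 2)) *
            (∫⁻ s in Ioo 0 t, ENNReal.ofReal (4 * s * Real.log (t / s)) * (Bd s * TT β k s t)) +
          ENNReal.ofReal (4 * t * Real.log (ρ / t)) * (Bd t * ENNReal.ofReal (SS k t)))) := by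
      unfold UU
      rw [div_eq_inv_mul, ENNReal.ofReal_mul (by positivity), mn_lint hp (by simp [hH0]) h0 h1,
        ← lintegral_const_mul _ (by
          apply Measurable.mul
          · exact ENNReal.measurable_ofReal.comp (by fun_prop)
          · exact measurable_DD _)]
      apply setLIntegral_mono' measurableSet_Ioo
      intro t ht
      have ht0 := ht.1
      have ht1 : t < 1 := ht.2.trans h1
      have hlog : 0 ≤ Real.log (ρ / t) := Real.log_nonneg ((one_le_div ht0).2 ht.2.le)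
      have hlt := la_nonneg ht0 ht1
      have hmn := mn_nonneg (fun x => H x ^ k) t
      have hk1 : ((k:ℝ) + 1) ≠ 0 := by positivity
      have hk2 : (k.factorial : ℝ) ≠ 0 := by positivity
      have i1 := hB t ht0 ht1 k
      have i2 := ih t ht0 ht1
      unfold UU at i2
      calc ENNReal.ofReal ((k + 1).factorial : ℝ)⁻¹ * (ENNReal.ofReal (4 * t * Real.log (ρ / t)) * DD (fun x => H x ^ (k + 1)) t)
          ≤ ENNReal.ofReal ((k + 1).factorial : ℝ)⁻¹ * (ENNReal.ofReal (4 * t * Real.log (ρ / t)) *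
            (ENNReal.ofReal (((k:ℝ) + 1) ^ 2 * β ^ 2 / (1 - t ^ 2) ^ 2) * ENNReal.ofReal (mn (fun x => H x ^ k) t) +
            ENNReal.ofReal (((k:ℝ) + 1) ^ 2 * la t ^ (2 * k)) * Bd t)) := by gcongr
        _ = ENNReal.ofReal (4 * t * Real.log (ρ / t) * (((k:ℝ) + 1) * β ^ 2 / (1 - t ^ 2) ^ 2)) *
              ENNReal.ofReal (mn (fun x => H x ^ k) t / (k.factorial : ℝ)) +
            ENNReal.ofReal (4 * t * Real.log (ρ / t)) * (Bd t * ENNReal.ofReal (SS k t)) := by
            rw [mul_add, mul_add]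
            congr 1
            · rw [← ENNReal.ofReal_mul (by positivity), ← ENNReal.ofReal_mul (by positivity), ← ENNReal.ofReal_mul (by positivity),
                ← ENNReal.ofReal_mul (by positivity)]
              congr 1
              rw [Nat.factorial_succ]
              push_cast
              field_simp
            · have e1 : ENNReal.ofReal (SS k t) = ENNReal.ofReal ((k + 1).factorial : ℝ)⁻¹ * ENNReal.ofReal (((k:ℝ) + 1) ^ 2 * la t ^ (2 * k)) := by
                rw [← ENNReal.ofReal_mul (by positivity)]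
                congr 1
                unfold SS
                rw [Nat.factorial_succ]
                push_cast
                field_simp
              rw [e1]
              ring
        _ ≤ ENNReal.ofReal (4 * t * Real.log (ρ / t) * (((k:ℝ) + 1) * β ^ 2 / (1 - t ^ 2) ^ 2)) *
              (ENNReal.ofReal ((β ^ 2 * la t) ^ k) +
                ∫⁻ s in Ioo 0 t, ENNReal.ofReal (4 * s * Real.log (t / s)) * (Bd s * TT β k s t)) +
            ENNReal.ofReal (4 * t * Real.log (ρ / t)) * (Bd t * ENNReal.ofReal (SS k t)) := by gcongr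
        _ = _ := by
            rw [mul_add, add_assoc]
            congr 1
            rw [← ENNReal.ofReal_mul (by positivity), ← ENNReal.ofReal_mul hβp]
            congr 1
            rw [la_zero, mul_pow]
            ring
    refine hrec.trans ?_
    have hm6 : Measurable fun t : ℝ => ENNReal.ofReal (4 * t * Real.log (ρ / t) * (((k:ℝ) + 1) / (1 - t ^ 2) ^ 2 * (la t - la 0) ^ k)) := by
      fun_prop
    have hm7 : Measurable fun t : ℝ => ENNReal.ofReal (4 * t * Real.log (ρ / t)) * (Bd t * ENNReal.ofReal (SS k t)) :=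
      Measurable.mul (by fun_prop) (hBm.mul hmS.ennreal_ofReal)
    rw [lintegral_add_left (hm6.const_mul _), lintegral_add_right _ hm7, lintegral_const_mul _ hm6]
    -- the first term
    have hI1 : ENNReal.ofReal (β ^ (2 * k + 2)) * ∫⁻ t in Ioo 0 ρ, ENNReal.ofReal (4 * t * Real.log (ρ / t) *
        (((k:ℝ) + 1) / (1 - t ^ 2) ^ 2 * (la t - la 0) ^ k)) ≤ ENNReal.ofReal ((β ^ 2 * la ρ) ^ (k + 1)) := by
      refine (mul_le_mul_right (kernel le_rfl h0 h1 k) _).trans (le_of_eq ?_)
      rw [← ENNReal.ofReal_mul hβp]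
      congr 1
      rw [la_zero, mul_pow, sub_zero, ← pow_mul]
      ring
    -- the second term
    have hI2 := swap_ineq (fun t => ENNReal.ofReal (4 * t * Real.log (ρ / t) * (((k:ℝ) + 1) * β ^ 2 / (1 - t ^ 2) ^ 2))) Bd
      (fun s t => TT β k s t) (by fun_prop) hBm (measurable_TT β k) ρ
    refine (add_le_add hI1 (add_le_add hI2 le_rfl)).trans ?_
    gcongr
    have hm5 : Measurable fun s : ℝ => ENNReal.ofReal (4 * s * Real.log (ρ / s)) * (Bd s * ENNReal.ofReal (SS k s)) :=
      Measurable.mul (by fun_prop) (hBm.mul hmS.ennreal_ofReal)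
    rw [← lintegral_add_right _ hm5]
    apply setLIntegral_mono' measurableSet_Ioo
    intro s hs
    rw [← mul_add, ← mul_add]
    gcongr
    exact TT_step β k hs.1.le hs.2 h1

end Pool.Agent.TH325.SI
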