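import Mathlib
import Pool.Agent.TH325.SI.E

/-! The generating function. -/

set_option autoImplicit false
open Complex Filter Topology Set Metric MeasureTheory
open scoped ENNReal

namespace Pool.Agent.TH325.SI

open Pool.Agent.H713R2

theorem em_hasSum0 {H : ℂ → ℂ} (hH : DifferentiableOn ℂ H (ball 0 1)) {ρ c : ℝ} (h0 : 0 < ρ) (h1 : ρ < 1) :
    HasSum (fun k : ℕ => c ^ k / (k.factorial : ℝ) * mn (fun x => H x ^ k) ρ) (em H c ρ) := by
  have h := em_hasSum hH h0 h1 (c := c)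
  have h2 : mn (fun _ => (1:ℂ)) ρ = 1 := by
    unfold mn
    simp
    field_simp
  rw [← hasSum_nat_add_iff' 1]
  simpa [h2] using h

theorem measurable_TTs (β ρ : ℝ) (k : ℕ) : Measurable fun s : ℝ => TT β k s ρ := by
  have hps : Measurable fun s : ℝ => ((ρ, s) : ℝ × ℝ) := measurable_const.prodMk measurable_id
  have := (measurable_TT β k).comp hps
  exact this

/-- the weight of a source -/
noncomputable def WW (c β ρ s : ℝ) : ℝ :=
  (1 - c * β ^ 2 * (la ρ - la s))⁻¹ * (c / (1 - c * β ^ 2 * (la ρ - la s)) *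
    (1 + c / (1 - c * β ^ 2 * (la ρ - la s)) * la s ^ 2) * Real.exp (c / (1 - c * β ^ 2 * (la ρ - la s)) * la s ^ 2))

theorem gen_TT {c β : ℝ} (hc : 0 ≤ c) {s ρ : ℝ} (hs : 0 < s) (hsρ : s < ρ) (hρ : ρ < 1) (hq : c * β ^ 2 * la ρ < 1) :
    ∑' k : ℕ, ENNReal.ofReal (c ^ k) * TT β k s ρ = ENNReal.ofReal (WW c β ρ s) := by
  have hls := la_nonneg hs (hsρ.trans hρ)
  have hδ : 0 ≤ la ρ - la s := by linarith [la_mono hs hsρ hρ]
  set q : ℝ := c * β ^ 2 * (la ρ - la s) with hqd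
  have hq0 : 0 ≤ q := by positivity
  have hq1 : q < 1 := by
    have : c * β ^ 2 * (la ρ - la s) ≤ c * β ^ 2 * la ρ := by gcongr; linarith
    linarith
  have hq2 : 0 < 1 - q := by linarith
  have e1 : ∀ k : ℕ, ENNReal.ofReal (c ^ k) * TT β k s ρ =
      ∑' j : ℕ, ENNReal.ofReal (c ^ k * ((k.choose (j + 1) : ℝ) * (β ^ 2 * (la ρ - la s)) ^ (k - 1 - j) * SS j s)) := by
    intro k
    unfold TT
    rw [← ENNReal.tsum_mul_left]
    congr 1
    funext j
    rw [← ENNReal.ofReal_mul (by positivity)]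
  simp only [e1]
  rw [ENNReal.tsum_comm]
  have e2 : ∀ j : ℕ, ∑' k : ℕ, ENNReal.ofReal (c ^ k * ((k.choose (j + 1) : ℝ) * (β ^ 2 * (la ρ - la s)) ^ (k - 1 - j) * SS j s)) =
      ENNReal.ofReal ((1 - q)⁻¹ * ((c / (1 - q)) ^ (j + 1) / ((j + 1).factorial : ℝ) * (((j:ℝ) + 1) ^ 2 * la s ^ (2 * j)))) := by
    intro j
    have hSS := SS_nonneg j s
    have h3 : HasSum (fun k : ℕ => c ^ k * ((k.choose (j + 1) : ℝ) * (β ^ 2 * (la ρ - la s)) ^ (k - 1 - j) * SS j s))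
        ((1 - q)⁻¹ * ((c / (1 - q)) ^ (j + 1) / ((j + 1).factorial : ℝ) * (((j:ℝ) + 1) ^ 2 * la s ^ (2 * j)))) := by
      rw [← hasSum_nat_add_iff' (j + 1)]
      have hz : ∑ i ∈ Finset.range (j + 1), c ^ i * ((i.choose (j + 1) : ℝ) * (β ^ 2 * (la ρ - la s)) ^ (i - 1 - j) * SS j s) = 0 := by
        apply Finset.sum_eq_zero
        intro i hi
        rw [Finset.mem_range] at hi
        rw [Nat.choose_eq_zero_of_lt hi]
        simp
      rw [hz, sub_zero]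
      have h4 := (hasSum_choose_mul_geometric_of_norm_lt_one (𝕜 := ℝ) (j + 1) (r := q) (by rw [Real.norm_of_nonneg hq0]; exact hq1)).mul_left (c ^ (j + 1) * SS j s)
      have e3 : (fun k : ℕ => c ^ (k + (j + 1)) * (((k + (j + 1)).choose (j + 1) : ℝ) * (β ^ 2 * (la ρ - la s)) ^ (k + (j + 1) - 1 - j) * SS j s))
          = fun k : ℕ => c ^ (j + 1) * SS j s * (((k + (j + 1)).choose (j + 1) : ℝ) * q ^ k) := by
        funext k
        have : k + (j + 1) - 1 - j = k := by omega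
        rw [this, hqd, mul_assoc c, mul_pow c, pow_add]
        ring
      have e4 : (1 - q)⁻¹ * ((c / (1 - q)) ^ (j + 1) / ((j + 1).factorial : ℝ) * (((j:ℝ) + 1) ^ 2 * la s ^ (2 * j))) =
          c ^ (j + 1) * SS j s * (1 / (1 - q) ^ (j + 1 + 1)) := by
        unfold SS
        rw [Nat.factorial_succ, div_pow, pow_succ (1 - q) (j + 1)]
        push_cast
        have h5 : ((j:ℝ) + 1) ≠ 0 := by positivity
        have h6 : (j.factorial : ℝ) ≠ 0 := by positivity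
        have h7 : (1 - q) ^ (j + 1) ≠ 0 := by positivity
        field_simp
      rw [e3, e4]
      exact h4
    rw [← ENNReal.ofReal_tsum_of_nonneg (fun k => by positivity) h3.summable, h3.tsum_eq]
  simp only [e2]
  have h5 := (ser (c / (1 - q)) (la s)).mul_left (1 - q)⁻¹
  rw [← ENNReal.ofReal_tsum_of_nonneg (fun j => by positivity) h5.summable, h5.tsum_eq]
  rfl

theorem gen {H : ℂ → ℂ} (hH : DifferentiableOn ℂ H (ball 0 1)) (hH0 : H 0 = 0) (β : ℝ) {Bd : ℝ → ℝ≥0∞} (hBm : Measurable Bd)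
    (hB : ∀ t : ℝ, 0 < t → t < 1 → ∀ k : ℕ, DD (fun x => H x ^ (k + 1)) t ≤
      ENNReal.ofReal (((k:ℝ) + 1) ^ 2 * β ^ 2 / (1 - t ^ 2) ^ 2) * ENNReal.ofReal (mn (fun x => H x ^ k) t) +
        ENNReal.ofReal (((k:ℝ) + 1) ^ 2 * la t ^ (2 * k)) * Bd t) {c ρ : ℝ} (hc : 0 ≤ c) (h0 : 0 < ρ) (h1 : ρ < 1)
    (hq : c * β ^ 2 * la ρ < 1) :
    ENNReal.ofReal (em H c ρ) ≤ ENNReal.ofReal (1 / (1 - c * β ^ 2 * la ρ)) +
      ∫⁻ s in Ioo 0 ρ, ENNReal.ofReal (4 * s * Real.log (ρ / s)) * (Bd s * ENNReal.ofReal (WW c β ρ s)) := by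
  have hlρ := la_nonneg h0 h1
  have hs := em_hasSum0 hH h0 h1 (c := c)
  have hTs : ∀ k, Measurable fun s : ℝ => TT β k s ρ := measurable_TTs β ρ
  have hk0 : Measurable fun s : ℝ => ENNReal.ofReal (4 * s * Real.log (ρ / s)) := by fun_prop
  rw [← hs.tsum_eq, ENNReal.ofReal_tsum_of_nonneg (fun k => by
    have := mn_nonneg (fun x => H x ^ k) ρ
    positivity) hs.summable]
  have e1 : ∀ k : ℕ, ENNReal.ofReal (c ^ k / (k.factorial : ℝ) * mn (fun x => H x ^ k) ρ) ≤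
      ENNReal.ofReal ((c * β ^ 2 * la ρ) ^ k) +
        ∫⁻ s in Ioo 0 ρ, ENNReal.ofReal (c ^ k) * (ENNReal.ofReal (4 * s * Real.log (ρ / s)) * (Bd s * TT β k s ρ)) := by
    intro k
    have h3 := moments hH hH0 β hBm hB k ρ h0 h1
    have h4 : ENNReal.ofReal (c ^ k / (k.factorial : ℝ) * mn (fun x => H x ^ k) ρ) = ENNReal.ofReal (c ^ k) * UU H k ρ := by
      unfold UU
      rw [← ENNReal.ofReal_mul (by positivity)]
      congr 1
      ring
    rw [h4]
    refine (mul_le_mul_right h3 _).trans (le_of_eq ?_)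
    have hm : Measurable fun s : ℝ => ENNReal.ofReal (4 * s * Real.log (ρ / s)) * (Bd s * TT β k s ρ) :=
      hk0.mul (hBm.mul (hTs k))
    have e5 : c ^ k * (β ^ 2 * la ρ) ^ k = (c * β ^ 2 * la ρ) ^ k := by rw [← mul_pow, mul_assoc]
    rw [mul_add, ← ENNReal.ofReal_mul (by positivity), ← lintegral_const_mul _ hm, e5]
  refine (ENNReal.tsum_le_tsum e1).trans ?_
  rw [ENNReal.tsum_add]
  have hq0 : 0 ≤ c * β ^ 2 * la ρ := by positivity
  apply add_le_add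
  · have h5 := hasSum_geometric_of_lt_one hq0 hq
    rw [← ENNReal.ofReal_tsum_of_nonneg (fun k => by positivity) h5.summable, h5.tsum_eq, one_div]
  · have hm : ∀ k : ℕ, Measurable fun s : ℝ => ENNReal.ofReal (c ^ k) * (ENNReal.ofReal (4 * s * Real.log (ρ / s)) * (Bd s * TT β k s ρ)) :=
      fun k => (hk0.mul (hBm.mul (hTs k))).const_mul _
    rw [← lintegral_tsum (fun k => (hm k).aemeasurable)]
    apply setLIntegral_mono' measurableSet_Ioo
    intro s hs'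
    have h6 := gen_TT hc hs'.1 hs'.2 h1 hq
    have h7 : ∑' k : ℕ, ENNReal.ofReal (c ^ k) * (ENNReal.ofReal (4 * s * Real.log (ρ / s)) * (Bd s * TT β k s ρ)) =
        ∑' k : ℕ, ENNReal.ofReal (4 * s * Real.log (ρ / s)) * Bd s * (ENNReal.ofReal (c ^ k) * TT β k s ρ) := by
      congr 1
      funext k
      ring
    rw [h7, ENNReal.tsum_mul_left, h6, mul_assoc]

/-- bound of the weight -/
theorem WW_le {a β s ρ : ℝ} (ha : 0 < a) (haβ : a * β ^ 2 < 1) (hs : 0 < s) (hsρ : s < ρ) (hρ2 : 1 / 2 ≤ ρ) (hρ : ρ < 1) :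
    WW (a / la ρ) β ρ s ≤ (38 / 10 * a + a ^ 2) / (1 - a * β ^ 2) ^ 2 * (1 - s ^ 2) ^ (-a) := by
  have hl := la_ge hρ2 hρ
  have hl0 : 0 < la ρ := by linarith
  have hls := la_nonneg hs (hsρ.trans hρ)
  have hm := la_mono hs hsρ hρ
  have hs1 : 0 < 1 - s ^ 2 := by nlinarith
  obtain ⟨x, hx⟩ : ∃ x, x = la s / la ρ := ⟨_, rfl⟩
  have hx0 : 0 ≤ x := by rw [hx]; positivity
  have hx1 : x ≤ 1 := by rw [hx, div_le_one hl0]; exact hm
  have hsx : la s = x * la ρ := by rw [hx]; field_simp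
  obtain ⟨y, hy⟩ : ∃ y, y = 1 - a / la ρ * β ^ 2 * (la ρ - la s) := ⟨_, rfl⟩
  have hy2 : y = 1 - a * β ^ 2 * (1 - x) := by
    rw [hy, hsx]
    field_simp
  obtain ⟨ω, hω⟩ : ∃ ω, ω = 1 - a * β ^ 2 := ⟨_, rfl⟩
  have hω0 : 0 < ω := by rw [hω]; linarith
  have hyω : ω ≤ y := by
    rw [hω, hy2]
    have : 0 ≤ a * β ^ 2 * x := by positivity
    nlinarith
  have hy0 : 0 < y := by linarith
  have hxy : x ≤ y := by
    rw [hy2]
    have : 0 ≤ (1 - a * β ^ 2) * (1 - x) := mul_nonneg (by linarith) (by linarith)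
    nlinarith
  unfold WW
  rw [← hy, ← hω]
  have h1 : a / la ρ / y * la s ^ 2 ≤ a * la s := by
    have e : a / la ρ / y * la s ^ 2 = a * la s * (x / y) := by
      rw [hsx]
      field_simp
    rw [e]
    have : x / y ≤ 1 := by rw [div_le_one hy0]; exact hxy
    have h2 : 0 ≤ a * la s := by positivity
    nlinarith
  have h2 : Real.exp (a / la ρ / y * la s ^ 2) ≤ (1 - s ^ 2) ^ (-a) := by
    rw [Real.rpow_def_of_pos hs1]
    apply Real.exp_le_exp.2
    refine h1.trans (le_of_eq ?_)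
    unfold la
    ring
  have h3 : a / la ρ / y ≤ 38 / 10 * a / ω := by
    have e1 : a / la ρ ≤ 38 / 10 * a := by
      rw [div_le_iff₀ hl0]
      nlinarith
    calc a / la ρ / y ≤ 38 / 10 * a / y := by gcongr
      _ ≤ 38 / 10 * a / ω := by gcongr
  have h4 : a / la ρ / y * (a / la ρ / y * la s ^ 2) ≤ a ^ 2 / ω := by
    calc a / la ρ / y * (a / la ρ / y * la s ^ 2) ≤ a / la ρ / y * (a * la s) := by gcongr
      _ = a ^ 2 * x / y := by rw [hsx]; field_simp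
      _ ≤ a ^ 2 * 1 / ω := by gcongr
      _ = a ^ 2 / ω := by ring
  have h5 : a / la ρ / y * (1 + a / la ρ / y * la s ^ 2) ≤ (38 / 10 * a + a ^ 2) / ω := by
    rw [mul_add, mul_one, add_div]
    linarith
  have h6 : y⁻¹ ≤ ω⁻¹ := inv_anti₀ hω0 hyω
  calc y⁻¹ * (a / la ρ / y * (1 + a / la ρ / y * la s ^ 2) * Real.exp (a / la ρ / y * la s ^ 2))
      ≤ ω⁻¹ * ((38 / 10 * a + a ^ 2) / ω * (1 - s ^ 2) ^ (-a)) := by gcongr
    _ = _ := by field_simp

end Pool.Agent.TH325.SI
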