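import Mathlib
import Pool.Agent.TH325.SI.F

/-! Exceptional sets, disc version. -/

set_option autoImplicit false
open Complex Filter Topology Set Metric MeasureTheory
open scoped ENNReal

namespace Pool.Agent.TH325.SI

open Pool.Agent.H713R2

/-- the quadratic mean of `|H'|` over the exceptional set -/
noncomputable def BB (β : ℝ) (H : ℂ → ℂ) (t : ℝ) : ℝ≥0∞ := by
  classical
  exact ENNReal.ofReal (2 * Real.pi)⁻¹ * ∫⁻ θ in Ioc 0 (2 * Real.pi),
    (if β < (1 - t ^ 2) * ‖deriv H (circleMap 0 t θ)‖ then ENNReal.ofReal (‖deriv H (circleMap 0 t θ)‖ ^ 2) else 0)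

theorem meas_d (H : ℂ → ℂ) : Measurable fun p : ℝ × ℝ => ‖deriv H (circleMap 0 p.1 p.2)‖ := by
  have h1 : Continuous fun p : ℝ × ℝ => circleMap 0 p.1 p.2 := by
    unfold circleMap
    fun_prop
  exact ((measurable_deriv H).comp h1.measurable).norm

theorem measurable_BB (β : ℝ) (H : ℂ → ℂ) : Measurable (BB β H) := by
  classical
  unfold BB
  apply Measurable.const_mul
  have h1 := meas_d H
  have h2 : Measurable fun p : ℝ × ℝ => (if β < (1 - p.1 ^ 2) * ‖deriv H (circleMap 0 p.1 p.2)‖ then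
      ENNReal.ofReal (‖deriv H (circleMap 0 p.1 p.2)‖ ^ 2) else 0) := by
    apply Measurable.ite
    · apply measurableSet_lt measurable_const
      apply Measurable.mul _ h1
      fun_prop
    · exact (h1.pow_const 2).ennreal_ofReal
    · exact measurable_const
  exact h2.lintegral_prod_right'

theorem mn_l {f : ℂ → ℂ} {t : ℝ} (hf : Continuous fun θ : ℝ => f (circleMap 0 t θ)) :
    ENNReal.ofReal (mn f t) = ENNReal.ofReal (2 * Real.pi)⁻¹ * ∫⁻ θ in Ioc 0 (2 * Real.pi), ENNReal.ofReal (‖f (circleMap 0 t θ)‖ ^ 2) := by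
  have hpi := Real.pi_pos
  have hpi0 : (0:ℝ) ≤ 2 * Real.pi := by positivity
  have hI : IntegrableOn (fun θ : ℝ => ‖f (circleMap 0 t θ)‖ ^ 2) (Ioc 0 (2 * Real.pi)) :=
    ((hf.norm.pow 2).continuousOn.integrableOn_compact isCompact_Icc).mono_set Ioc_subset_Icc_self
  unfold mn
  rw [ENNReal.ofReal_mul (by positivity), intervalIntegral.integral_of_le hpi0,
    ofReal_integral_eq_lintegral_ofReal hI (Eventually.of_forall fun θ => sq_nonneg _)]

theorem cont_d {H : ℂ → ℂ} (hH : DifferentiableOn ℂ H (ball 0 1)) {t : ℝ} (h0 : 0 < t) (h1 : t < 1) :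
    Continuous fun θ : ℝ => deriv H (circleMap 0 t θ) := cont_cm (hH.deriv isOpen_ball) h0 h1

theorem BB_main {H : ℂ → ℂ} (hH : DifferentiableOn ℂ H (ball 0 1))
    (hG : ∀ w ∈ ball (0:ℂ) 1, ‖H w‖ ≤ -Real.log (1 - ‖w‖ ^ 2)) {β : ℝ} (hβ : 0 ≤ β) (t : ℝ) (h0 : 0 < t) (h1 : t < 1) (k : ℕ) :
    DD (fun x => H x ^ (k + 1)) t ≤
      ENNReal.ofReal (((k:ℝ) + 1) ^ 2 * β ^ 2 / (1 - t ^ 2) ^ 2) * ENNReal.ofReal (mn (fun x => H x ^ k) t) +
        ENNReal.ofReal (((k:ℝ) + 1) ^ 2 * la t ^ (2 * k)) * BB β H t := by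
  classical
  have hp : DifferentiableOn ℂ (fun x => H x ^ (k + 1)) (ball 0 1) := hH.pow (k + 1)
  have hpk : DifferentiableOn ℂ (fun x => H x ^ k) (ball 0 1) := hH.pow k
  have ht : 0 < 1 - t ^ 2 := by nlinarith
  have hla := la_nonneg h0 h1
  rw [DD_eq hp h0 h1, mn_l (cont_cm (hp.deriv isOpen_ball) h0 h1), mn_l (cont_cm hpk h0 h1)]
  unfold BB
  rw [mul_left_comm (ENNReal.ofReal (((k:ℝ) + 1) ^ 2 * β ^ 2 / (1 - t ^ 2) ^ 2)),
    mul_left_comm (ENNReal.ofReal (((k:ℝ) + 1) ^ 2 * la t ^ (2 * k))), ← mul_add]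
  apply mul_le_mul_right
  have hm1 : Measurable fun θ : ℝ => ENNReal.ofReal (‖H (circleMap 0 t θ) ^ k‖ ^ 2) :=
    ((cont_cm hpk h0 h1).norm.pow 2).measurable.ennreal_ofReal
  have hd := (cont_d hH h0 h1).norm
  have hm2 : Measurable fun θ : ℝ => (if β < (1 - t ^ 2) * ‖deriv H (circleMap 0 t θ)‖ then
      ENNReal.ofReal (‖deriv H (circleMap 0 t θ)‖ ^ 2) else 0) := by
    apply Measurable.ite
    · apply measurableSet_lt measurable_const
      exact (continuous_const.mul hd).measurable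
    · exact (hd.pow 2).measurable.ennreal_ofReal
    · exact measurable_const
  rw [← lintegral_const_mul _ hm1, ← lintegral_const_mul _ hm2, ← lintegral_add_left (hm1.const_mul _)]
  apply lintegral_mono
  intro θ
  simp only
  have h2 : HasDerivAt H (deriv H (circleMap 0 t θ)) (circleMap 0 t θ) :=
    ((hH _ (cm_mem h0 h1 θ)).differentiableAt (isOpen_ball.mem_nhds (cm_mem h0 h1 θ))).hasDerivAt
  have h3 : deriv (fun x => H x ^ (k + 1)) (circleMap 0 t θ) = ((k + 1 : ℕ) : ℂ) * H (circleMap 0 t θ) ^ k * deriv H (circleMap 0 t θ) := by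
    have := (h2.fun_pow (k + 1)).deriv
    simpa using this
  rw [h3, norm_mul, norm_mul, Complex.norm_natCast, mul_pow, mul_pow]
  push_cast
  set D : ℝ := ‖deriv H (circleMap 0 t θ)‖ with hD
  set N : ℝ := ‖H (circleMap 0 t θ) ^ k‖ with hN
  have hD0 : 0 ≤ D := norm_nonneg _
  have hN0 : 0 ≤ N := norm_nonneg _
  split_ifs with hb
  · refine le_trans ?_ le_add_self
    rw [← ENNReal.ofReal_mul (by positivity)]
    apply ENNReal.ofReal_le_ofReal
    have h4 : N ^ 2 ≤ la t ^ (2 * k) := by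
      have h5 := hG _ (cm_mem h0 h1 θ)
      rw [norm_cm h0] at h5
      have h6 : ‖H (circleMap 0 t θ)‖ ≤ la t := h5
      rw [hN, norm_pow, ← pow_mul, mul_comm k 2]
      exact pow_le_pow_left₀ (norm_nonneg _) h6 _
    gcongr
  · refine le_trans ?_ (le_add_of_nonneg_right zero_le)
    rw [← ENNReal.ofReal_mul (by positivity)]
    apply ENNReal.ofReal_le_ofReal
    have h4 : D ≤ β / (1 - t ^ 2) := by
      rw [le_div_iff₀ ht]
      linarith
    calc ((k:ℝ) + 1) ^ 2 * N ^ 2 * D ^ 2 ≤ ((k:ℝ) + 1) ^ 2 * N ^ 2 * (β / (1 - t ^ 2)) ^ 2 := by gcongr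
      _ = ((k:ℝ) + 1) ^ 2 * β ^ 2 / (1 - t ^ 2) ^ 2 * N ^ 2 := by
          rw [div_pow]; ring

theorem int_rpow {p ρ : ℝ} (hp : -1 < p) (h0 : 0 < ρ) (h1 : ρ < 1) :
    ∫⁻ s in Ioo 0 ρ, ENNReal.ofReal ((1 - s) ^ p) ≤ ENNReal.ofReal (1 / (p + 1)) := by
  have hc : ContinuousOn (fun s : ℝ => (1 - s) ^ p) (Icc 0 ρ) := by
    apply ContinuousOn.rpow_const (by fun_prop)
    intro s hs
    left
    have := hs.2
    linarith
  have hI : IntegrableOn (fun s : ℝ => (1 - s) ^ p) (Ioo 0 ρ) :=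
    (hc.integrableOn_compact isCompact_Icc).mono_set Ioo_subset_Icc_self
  rw [← ofReal_integral_eq_lintegral_ofReal hI (by
    rw [EventuallyLE, ae_restrict_iff' measurableSet_Ioo]
    exact Eventually.of_forall fun s hs => Real.rpow_nonneg (by linarith [hs.2]) _)]
  apply ENNReal.ofReal_le_ofReal
  rw [← integral_Ioc_eq_integral_Ioo, ← intervalIntegral.integral_of_le h0.le,
    intervalIntegral.integral_comp_sub_left (fun x => x ^ p) 1, sub_zero, integral_rpow (Or.inl hp), Real.one_rpow]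
  have : 0 < p + 1 := by linarith
  apply div_le_div_of_nonneg_right _ this.le
  have := Real.rpow_nonneg (by linarith : (0:ℝ) ≤ 1 - ρ) (p + 1)
  linarith

/-- **Exceptional sets, disc version.** -/
theorem power {H : ℂ → ℂ} (hH : DifferentiableOn ℂ H (ball 0 1)) (hH0 : H 0 = 0)
    (hG : ∀ w ∈ ball (0:ℂ) 1, ‖H w‖ ≤ -Real.log (1 - ‖w‖ ^ 2)) {a β τ K ρ : ℝ} (ha : 0 < a) (hβ : 0 ≤ β) (haβ : a * β ^ 2 < 1)
    (haτ : a + τ < 2) (hK : 0 ≤ K) (hρ : 1 / 2 ≤ ρ) (h1 : ρ < 1)
    (hB : ∀ t : ℝ, 0 < t → t < 1 → BB β H t ≤ ENNReal.ofReal (K * (1 - t) ^ (-τ))) :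
    em H (a / la ρ) ρ ≤ 1 / (1 - a * β ^ 2) + 8 * ((38 / 10 * a + a ^ 2) / (1 - a * β ^ 2) ^ 2) * K / (2 - a - τ) := by
  have h0 : 0 < ρ := by linarith
  have hl := la_ge hρ h1
  have hl0 : 0 < la ρ := by linarith
  have hq : a / la ρ * β ^ 2 * la ρ = a * β ^ 2 := by field_simp
  have hω : 0 < 1 - a * β ^ 2 := by linarith
  have hden : 0 < 2 - a - τ := by linarith
  have hgen := gen hH hH0 β (measurable_BB β H) (fun t t0 t1 k => BB_main hH hG hβ t t0 t1 k) (c := a / la ρ) (by positivity) h0 h1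
    (by rw [hq]; exact haβ)
  rw [hq] at hgen
  set C1 : ℝ := (38 / 10 * a + a ^ 2) / (1 - a * β ^ 2) ^ 2 with hC1
  have hC10 : 0 ≤ C1 := by positivity
  have hI : ∫⁻ s in Ioo 0 ρ, ENNReal.ofReal (4 * s * Real.log (ρ / s)) * (BB β H s * ENNReal.ofReal (WW (a / la ρ) β ρ s)) ≤
      ENNReal.ofReal (8 * C1 * K / (2 - a - τ)) := by
    calc _ ≤ ∫⁻ s in Ioo 0 ρ, ENNReal.ofReal (8 * C1 * K) * ENNReal.ofReal ((1 - s) ^ (1 - a - τ)) := by
          apply setLIntegral_mono' measurableSet_Ioo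
          intro s hs
          have hs0 := hs.1
          have hs1 : 0 < 1 - s := by linarith [hs.2]
          have hs2 : 0 < 1 - s ^ 2 := by nlinarith
          have hlog : 0 ≤ Real.log (ρ / s) := Real.log_nonneg ((one_le_div hs.1).2 hs.2.le)
          have e1 := WW_le ha haβ hs.1 hs.2 hρ h1
          have e2 := hB s hs.1 (hs.2.trans h1)
          have e3 := tlog hs.1 hs.2 h1
          have e4 : s * Real.log (ρ / s) ≤ 1 - s ^ 2 := e3.trans (by nlinarith)
          have e5 : (1 - s ^ 2) * (1 - s ^ 2) ^ (-a) ≤ 2 * (1 - s) ^ (1 - a) := by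
            have f1 : (1 - s ^ 2) * (1 - s ^ 2) ^ (-a) = (1 - s ^ 2) ^ (1 - a) := by
              nth_rewrite 1 [← Real.rpow_one (1 - s ^ 2)]
              rw [← Real.rpow_add hs2]
              congr 1
            have f2 : (1 - s ^ 2) = (1 + s) * (1 - s) := by ring
            have f3 : (1 + s) ^ (1 - a) ≤ 2 := by
              calc (1 + s) ^ (1 - a) ≤ (1 + s) ^ (1:ℝ) := Real.rpow_le_rpow_of_exponent_le (by linarith) (by linarith)
                _ ≤ 2 := by rw [Real.rpow_one]; linarith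
            rw [f1, f2, Real.mul_rpow (by linarith) hs1.le]
            gcongr
          calc ENNReal.ofReal (4 * s * Real.log (ρ / s)) * (BB β H s * ENNReal.ofReal (WW (a / la ρ) β ρ s))
              ≤ ENNReal.ofReal (4 * s * Real.log (ρ / s)) * (ENNReal.ofReal (K * (1 - s) ^ (-τ)) * ENNReal.ofReal (C1 * (1 - s ^ 2) ^ (-a))) := by
                gcongr
            _ = ENNReal.ofReal (4 * s * Real.log (ρ / s) * (K * (1 - s) ^ (-τ) * (C1 * (1 - s ^ 2) ^ (-a)))) := by
                rw [← ENNReal.ofReal_mul (by positivity), ← ENNReal.ofReal_mul (by positivity)]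
            _ ≤ ENNReal.ofReal (8 * C1 * K * (1 - s) ^ (1 - a - τ)) := by
                apply ENNReal.ofReal_le_ofReal
                calc 4 * s * Real.log (ρ / s) * (K * (1 - s) ^ (-τ) * (C1 * (1 - s ^ 2) ^ (-a)))
                    = 4 * (s * Real.log (ρ / s)) * (K * (1 - s) ^ (-τ) * (C1 * (1 - s ^ 2) ^ (-a))) := by ring
                  _ ≤ 4 * (1 - s ^ 2) * (K * (1 - s) ^ (-τ) * (C1 * (1 - s ^ 2) ^ (-a))) := by gcongr
                  _ = 4 * K * C1 * (1 - s) ^ (-τ) * ((1 - s ^ 2) * (1 - s ^ 2) ^ (-a)) := by ring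
                  _ ≤ 4 * K * C1 * (1 - s) ^ (-τ) * (2 * (1 - s) ^ (1 - a)) := by gcongr
                  _ = 8 * C1 * K * ((1 - s) ^ (1 - a) * (1 - s) ^ (-τ)) := by ring
                  _ = 8 * C1 * K * (1 - s) ^ (1 - a - τ) := by
                      rw [← Real.rpow_add hs1]
                      congr 2
            _ = _ := by rw [ENNReal.ofReal_mul (by positivity)]
      _ = ENNReal.ofReal (8 * C1 * K) * ∫⁻ s in Ioo 0 ρ, ENNReal.ofReal ((1 - s) ^ (1 - a - τ)) := by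
          apply lintegral_const_mul
          fun_prop
      _ ≤ ENNReal.ofReal (8 * C1 * K) * ENNReal.ofReal (1 / (1 - a - τ + 1)) := by
          gcongr
          exact int_rpow (by linarith) h0 h1
      _ = _ := by
          rw [← ENNReal.ofReal_mul (by positivity)]
          congr 1
          have : 1 - a - τ + 1 = 2 - a - τ := by ring
          rw [this]
          ring
  have hfin := hgen.trans (add_le_add le_rfl hI)
  rw [← ENNReal.ofReal_add (by positivity) (by positivity), ENNReal.ofReal_le_ofReal_iff (by positivity)] at hfin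
  exact hfin

end Pool.Agent.TH325.SI
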