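import Mathlib
import Pool.Agent.TH325.SI.G
import Pool.Agent.W677.MarF3

/-! Transfer to the exterior of the disc. -/

set_option autoImplicit false
open Complex Filter Topology Set Metric MeasureTheory
open scoped ENNReal

namespace Pool.Agent.TH325.SI

open Pool.Agent.H713R2
open Pool.Agent.W677.Mar (hat Sg Hol)

/-- reflection of the circle -/
theorem refl_lint {F : ℝ → ℝ≥0∞} (hF : Measurable F) (hper : Function.Periodic F (2 * Real.pi)) :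
    ∫⁻ θ in Ioc 0 (2 * Real.pi), F (-θ) = ∫⁻ θ in Ioc 0 (2 * Real.pi), F θ := by
  have h1 : MeasurePreserving (fun θ : ℝ => 2 * Real.pi - θ) volume volume := Measure.measurePreserving_sub_left volume (2 * Real.pi)
  have h2 := h1.setLIntegral_comp_preimage (s := Ico 0 (2 * Real.pi)) measurableSet_Ico hF
  have h3 : (fun θ : ℝ => 2 * Real.pi - θ) ⁻¹' Ico 0 (2 * Real.pi) = Ioc 0 (2 * Real.pi) := by
    ext θ
    simp only [mem_preimage, mem_Ico, mem_Ioc]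
    constructor
    · rintro ⟨h4, h5⟩
      constructor <;> linarith
    · rintro ⟨h4, h5⟩
      constructor <;> linarith
  rw [h3] at h2
  have h4 : ∀ θ : ℝ, F (2 * Real.pi - θ) = F (-θ) := by
    intro θ
    have := hper (-θ)
    rw [← this]
    congr 1
    ring
  simp only [h4] at h2
  rw [h2]
  exact setLIntegral_congr Ico_ae_eq_Ioc

theorem refl_int {F : ℝ → ℝ} (hper : Function.Periodic F (2 * Real.pi)) :
    ∫ θ in (0:ℝ)..(2 * Real.pi), F (-θ) = ∫ θ in (0:ℝ)..(2 * Real.pi), F θ := by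
  rw [intervalIntegral.integral_comp_neg F]
  have h3 := hper.intervalIntegral_add_eq (-(2 * Real.pi)) 0
  rw [neg_add_cancel, zero_add] at h3
  rw [neg_zero]
  exact h3

/-- the point `r e^{iθ}` -/
noncomputable def ep (r θ : ℝ) : ℂ := (r : ℂ) * exp ((θ : ℂ) * I)

theorem norm_ep {r : ℝ} (hr : 0 ≤ r) (θ : ℝ) : ‖ep r θ‖ = r := by
  rw [ep, norm_mul, Complex.norm_exp_ofReal_mul_I, mul_one, Complex.norm_real, Real.norm_of_nonneg hr]

theorem ep_per (r : ℝ) : Function.Periodic (ep r) (2 * Real.pi) := by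
  intro θ
  unfold ep
  congr 1
  push_cast
  rw [add_mul, Complex.exp_add, Complex.exp_two_pi_mul_I, mul_one]

theorem cm_inv {t : ℝ} (_h0 : 0 < t) (θ : ℝ) : (circleMap 0 t θ)⁻¹ = ep t⁻¹ (-θ) := by
  unfold ep
  simp only [circleMap, zero_add]
  rw [mul_inv, ← Complex.exp_neg]
  push_cast
  congr 2
  ring

theorem cm_ne {t : ℝ} (h0 : 0 < t) (θ : ℝ) : circleMap 0 t θ ≠ 0 := by
  rw [← norm_pos_iff, norm_cm h0]
  exact h0

theorem norm_deriv_hat {h : ℂ → ℂ} (hh : Hol h 0) {t : ℝ} (h0 : 0 < t) (h1 : t < 1) (θ : ℝ) :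
    ‖deriv (hat h 0) (circleMap 0 t θ)‖ = t⁻¹ ^ 2 * ‖deriv h (ep t⁻¹ (-θ))‖ := by
  rw [(Pool.Agent.W677.Mar.hat_hasDeriv hh (cm_mem h0 h1 θ) (cm_ne h0 θ)).deriv, norm_mul, norm_neg, norm_inv, norm_pow, norm_cm h0, cm_inv h0]
  rw [inv_pow]
  ring

theorem hat_cm {h : ℂ → ℂ} {t : ℝ} (h0 : 0 < t) (θ : ℝ) : hat h 0 (circleMap 0 t θ) = h (ep t⁻¹ (-θ)) := by
  rw [Pool.Agent.W677.Mar.hat_ne _ _ (cm_ne h0 θ), cm_inv h0]

theorem em_hat {h : ℂ → ℂ} {ρ : ℝ} (h0 : 0 < ρ) (c : ℝ) :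
    em (hat h 0) c ρ = (2 * Real.pi)⁻¹ * ∫ θ in (0:ℝ)..(2 * Real.pi), Real.exp (c * ‖h (ep ρ⁻¹ θ)‖ ^ 2) := by
  unfold em
  congr 1
  simp only [hat_cm h0]
  exact refl_int (F := fun θ => Real.exp (c * ‖h (ep ρ⁻¹ θ)‖ ^ 2)) (fun θ => by simp only [ep_per ρ⁻¹ θ])

theorem log_eq {R : ℝ} (hR : 1 < R) : Real.log (R ^ 2 / (R ^ 2 - 1)) = la R⁻¹ := by
  have h1 : 1 - R⁻¹ ^ 2 = (R ^ 2 / (R ^ 2 - 1))⁻¹ := by
    have : R ^ 2 - 1 ≠ 0 := by nlinarith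
    have : R ≠ 0 := by linarith
    field_simp
  rw [la, h1, Real.log_inv, neg_neg]

/-- the exceptional part, exterior -/
noncomputable def exc (β : ℝ) (h : ℂ → ℂ) (r : ℝ) : ℝ≥0∞ := by
  classical
  exact ∫⁻ θ in Ioc 0 (2 * Real.pi), (if β < (r ^ 2 - 1) * ‖deriv h (ep r θ)‖ then ENNReal.ofReal (‖deriv h (ep r θ)‖ ^ 2) else 0)

theorem meas_ep (h : ℂ → ℂ) (r : ℝ) : Measurable fun θ : ℝ => ‖deriv h (ep r θ)‖ := by
  have h1 : Continuous fun θ : ℝ => ep r θ := by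
    unfold ep
    fun_prop
  exact ((measurable_deriv h).comp h1.measurable).norm

theorem BB_ext {h : ℂ → ℂ} (hh : Hol h 0) {β : ℝ} {t : ℝ} (h0 : 0 < t) (h1 : t < 1) :
    BB β (hat h 0) t = ENNReal.ofReal ((2 * Real.pi)⁻¹ * t⁻¹ ^ 4) * exc β h t⁻¹ := by
  classical
  unfold BB exc
  rw [ENNReal.ofReal_mul (by positivity), mul_assoc]
  congr 1
  have hm : Measurable fun θ : ℝ => (if β < (t⁻¹ ^ 2 - 1) * ‖deriv h (ep t⁻¹ θ)‖ then ENNReal.ofReal (‖deriv h (ep t⁻¹ θ)‖ ^ 2) else 0) := by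
    have h2 := meas_ep h t⁻¹
    apply Measurable.ite
    · apply measurableSet_lt measurable_const
      exact h2.const_mul _
    · exact (h2.pow_const 2).ennreal_ofReal
    · exact measurable_const
  have hm2 : Measurable fun θ : ℝ => (if β < (t⁻¹ ^ 2 - 1) * ‖deriv h (ep t⁻¹ (-θ))‖ then ENNReal.ofReal (‖deriv h (ep t⁻¹ (-θ))‖ ^ 2) else 0) :=
    hm.comp measurable_neg
  rw [← refl_lint hm (fun θ => by simp only [ep_per t⁻¹ θ]), ← lintegral_const_mul _ hm2]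
  congr 1
  funext θ
  rw [norm_deriv_hat hh h0 h1]
  have e1 : (1 - t ^ 2) * (t⁻¹ ^ 2 * ‖deriv h (ep t⁻¹ (-θ))‖) = (t⁻¹ ^ 2 - 1) * ‖deriv h (ep t⁻¹ (-θ))‖ := by
    have : t ≠ 0 := h0.ne'
    field_simp
  rw [e1]
  split_ifs with hb
  · rw [← ENNReal.ofReal_mul (by positivity)]
    congr 1
    ring
  · simp

theorem BB_le {H : ℂ → ℂ} (hH : DifferentiableOn ℂ H (ball 0 1)) {β t : ℝ} (h0 : 0 < t) (h1 : t < 1) :
    BB β H t ≤ ENNReal.ofReal (mn (deriv H) t) := by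
  classical
  rw [mn_l (cont_d hH h0 h1)]
  unfold BB
  gcongr
  split_ifs
  · exact le_rfl
  · exact zero_le

theorem mn_small {Y H : ℂ → ℂ} (S : Sg Y H) {t : ℝ} (h0 : 0 < t) (h1 : t < 1) : mn (deriv H) t ≤ 36 / (1 - t) ^ 2 := by
  have hpi := Real.pi_pos
  have hpi0 : (0:ℝ) ≤ 2 * Real.pi := by positivity
  have ht : 0 < 1 - t := by linarith
  have h2 : ∫ θ in (0:ℝ)..(2 * Real.pi), ‖deriv H (circleMap 0 t θ)‖ ^ 2 ≤ ∫ θ in (0:ℝ)..(2 * Real.pi), 36 / (1 - t) ^ 2 := by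
    apply intervalIntegral.integral_mono_on hpi0
    · exact ((cont_d S.dH h0 h1).norm.pow 2).intervalIntegrable _ _
    · simp
    · intro θ _
      have h3 := Pool.Agent.W677.Mar.H_bloch S (cm_mem h0 h1 θ)
      rw [norm_cm h0] at h3
      have h4 : ‖deriv H (circleMap 0 t θ)‖ ≤ 6 / (1 - t) := by
        rw [le_div_iff₀ ht]; exact h3
      calc ‖deriv H (circleMap 0 t θ)‖ ^ 2 ≤ (6 / (1 - t)) ^ 2 := by gcongr
        _ = _ := by rw [div_pow]; norm_num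
  unfold mn
  calc (2 * Real.pi)⁻¹ * ∫ θ in (0:ℝ)..(2 * Real.pi), ‖deriv H (circleMap 0 t θ)‖ ^ 2 ≤ (2 * Real.pi)⁻¹ * ∫ θ in (0:ℝ)..(2 * Real.pi), 36 / (1 - t) ^ 2 := by
        apply mul_le_mul_of_nonneg_left h2 (by positivity)
    _ = _ := by
        simp
        field_simp

end Pool.Agent.TH325.SI
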