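import Mathlib
import Pool.Agent.TH325.SI.X

/-! The four theorems, exterior version. -/

set_option autoImplicit false
open Complex Filter Topology Set Metric MeasureTheory
open scoped ENNReal

namespace Pool.Agent.TH325.SI

open Pool.Agent.H713R2
open Pool.Agent.W677.Mar (hat Sg Hol)

theorem mean_eq {h : ℂ → ℂ} {R : ℝ} (hR : 1 < R) (a : ℝ) :
    (1 / (2 * Real.pi)) * ∫ θ in (0:ℝ)..(2 * Real.pi), Real.exp (a * ‖h (ep R θ)‖ ^ 2 / Real.log (R ^ 2 / (R ^ 2 - 1))) =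
      em (hat h 0) (a / la R⁻¹) R⁻¹ := by
  rw [em_hat (by positivity), inv_inv, log_eq hR, one_div]
  congr 1
  apply intervalIntegral.integral_congr
  intro θ _
  simp only
  congr 1
  ring

theorem la_pos {t : ℝ} (h0 : 0 < t) (h1 : t < 1) : 0 < la t := by
  unfold la
  have : Real.log (1 - t ^ 2) < 0 := Real.log_neg (by nlinarith) (by nlinarith)
  linarith

/-- small circles -/
theorem em_small {H : ℂ → ℂ} (hH : DifferentiableOn ℂ H (ball 0 1))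
    (hG : ∀ w ∈ ball (0:ℂ) 1, ‖H w‖ ≤ -Real.log (1 - ‖w‖ ^ 2)) {a ρ : ℝ} (ha : 0 < a) (h0 : 0 < ρ) (h1 : ρ ≤ 1 / 2) :
    em H (a / la ρ) ρ ≤ Real.exp a := by
  have hpi := Real.pi_pos
  have hpi0 : (0:ℝ) ≤ 2 * Real.pi := by positivity
  have h2 : ρ < 1 := by linarith
  have hl := la_pos h0 h2
  have hl1 : la ρ ≤ 1 := by
    unfold la
    have h3 : 0 < 1 - ρ ^ 2 := by nlinarith
    have h4 := Real.log_le_sub_one_of_pos (inv_pos.2 h3)
    rw [Real.log_inv] at h4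
    have h5 : (1 - ρ ^ 2)⁻¹ ≤ 2 := by
      rw [inv_le_comm₀ h3 (by norm_num)]
      nlinarith
    linarith
  have h3 : ∫ θ in (0:ℝ)..(2 * Real.pi), Real.exp (a / la ρ * ‖H (circleMap 0 ρ θ)‖ ^ 2) ≤ ∫ θ in (0:ℝ)..(2 * Real.pi), Real.exp a := by
    apply intervalIntegral.integral_mono_on hpi0
    · have := (cont_cm hH h0 h2).norm.pow 2
      exact (Real.continuous_exp.comp (continuous_const.mul this)).intervalIntegrable _ _
    · simp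
    · intro θ _
      apply Real.exp_le_exp.2
      have h4 := hG _ (cm_mem h0 h2 θ)
      rw [norm_cm h0] at h4
      have h5 : ‖H (circleMap 0 ρ θ)‖ ≤ la ρ := h4
      have h6 : ‖H (circleMap 0 ρ θ)‖ ^ 2 ≤ la ρ ^ 2 := by gcongr
      calc a / la ρ * ‖H (circleMap 0 ρ θ)‖ ^ 2 ≤ a / la ρ * la ρ ^ 2 := by gcongr
        _ = a * la ρ := by field_simp
        _ ≤ a * 1 := by gcongr
        _ = a := mul_one a
  unfold em
  calc (2 * Real.pi)⁻¹ * ∫ θ in (0:ℝ)..(2 * Real.pi), Real.exp (a / la ρ * ‖H (circleMap 0 ρ θ)‖ ^ 2)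
      ≤ (2 * Real.pi)⁻¹ * ∫ θ in (0:ℝ)..(2 * Real.pi), Real.exp a := by
        apply mul_le_mul_of_nonneg_left h3 (by positivity)
    _ = _ := by
        simp
        field_simp

/-- all radii at once -/
theorem core {Y h : ℂ → ℂ} (S : Sg Y (hat h 0)) {a β τ K : ℝ} (ha : 0 < a) (hβ : 0 ≤ β) (haβ : a * β ^ 2 < 1)
    (haτ : a + τ < 2) (hK : 0 ≤ K)
    (hB : ∀ t : ℝ, 0 < t → t < 1 → BB β (hat h 0) t ≤ ENNReal.ofReal (K * (1 - t) ^ (-τ))) {R : ℝ} (hR : 1 < R) :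
    (1 / (2 * Real.pi)) * ∫ θ in (0:ℝ)..(2 * Real.pi), Real.exp (a * ‖h (ep R θ)‖ ^ 2 / Real.log (R ^ 2 / (R ^ 2 - 1))) ≤
      Real.exp a + (1 / (1 - a * β ^ 2) + 8 * ((38 / 10 * a + a ^ 2) / (1 - a * β ^ 2) ^ 2) * K / (2 - a - τ)) := by
  have hω : 0 < 1 - a * β ^ 2 := by linarith
  have hden : 0 < 2 - a - τ := by linarith
  have hG : ∀ w ∈ ball (0:ℂ) 1, ‖hat h 0 w‖ ≤ -Real.log (1 - ‖w‖ ^ 2) := fun w hw => Pool.Agent.W677.Mar.goluzin S hw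
  have hR0 : 0 < R⁻¹ := by positivity
  have hR1 : R⁻¹ < 1 := inv_lt_one_of_one_lt₀ hR
  rw [mean_eq hR]
  rcases le_or_gt R⁻¹ (1 / 2) with h2 | h2
  · refine (em_small S.dH hG ha hR0 h2).trans ?_
    have : 0 ≤ 1 / (1 - a * β ^ 2) + 8 * ((38 / 10 * a + a ^ 2) / (1 - a * β ^ 2) ^ 2) * K / (2 - a - τ) := by positivity
    linarith
  · refine (power S.dH S.H0 hG ha hβ haβ haτ hK h2.le hR1 hB).trans ?_
    have := Real.exp_pos a
    linarith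

theorem two_abs {x τ : ℝ} (hx : 1 / 2 ≤ x) (hx1 : x ≤ 1) : x ^ τ ≤ 2 ^ |τ| := by
  have hx0 : 0 < x := by linarith
  rcases le_total 0 τ with h | h
  · calc x ^ τ ≤ 1 := Real.rpow_le_one hx0.le hx1 h
      _ ≤ 2 ^ |τ| := Real.one_le_rpow (by norm_num) (abs_nonneg _)
  · rw [abs_of_nonpos h]
    calc x ^ τ = (x⁻¹) ^ (-τ) := by rw [Real.inv_rpow hx0.le, Real.rpow_neg hx0.le, inv_inv]
      _ ≤ 2 ^ (-τ) := by
          apply Real.rpow_le_rpow (by positivity) _ (by linarith)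
          rw [inv_le_comm₀ hx0 (by norm_num)]
          linarith

/-- the mean square of the derivative near the centre -/
theorem BB_small {Y H : ℂ → ℂ} (S : Sg Y H) {β t τ : ℝ} (h0 : 0 < t) (h1 : t ≤ 1 / 2) :
    BB β H t ≤ ENNReal.ofReal (144 * 2 ^ |τ| * (1 - t) ^ (-τ)) := by
  refine (BB_le S.dH h0 (by linarith)).trans ?_
  apply ENNReal.ofReal_le_ofReal
  refine (mn_small S h0 (by linarith)).trans ?_
  have h2 : 1 / 2 ≤ 1 - t := by linarith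
  have h3 : 36 / (1 - t) ^ 2 ≤ 144 := by
    rw [div_le_iff₀ (by positivity)]
    nlinarith
  have h4 := two_abs (τ := τ) h2 (by linarith)
  have h5 : 0 < (1 - t) ^ τ := Real.rpow_pos_of_pos (by linarith) _
  have h6 : 1 ≤ 2 ^ |τ| * (1 - t) ^ (-τ) := by
    rw [Real.rpow_neg (by linarith), ← div_eq_mul_inv, one_le_div h5]
    exact h4
  calc 36 / (1 - t) ^ 2 ≤ 144 * 1 := by linarith
    _ ≤ 144 * (2 ^ |τ| * (1 - t) ^ (-τ)) := by gcongr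
    _ = _ := by ring

/-- **Quadratic version.** -/
theorem thm2 (a β τ K : ℝ) (ha : 0 < a) (hβ : 0 ≤ β) (haβ : a * β ^ 2 < 1) (haτ : a + τ < 2) :
    ∃ C : ℝ, ∀ R : ℝ, 1 < R → ∀ ψ h : ℂ → ℂ, DifferentiableOn ℂ ψ {z : ℂ | 1 < ‖z‖} → InjOn ψ {z : ℂ | 1 < ‖z‖} →
      (∃ b : ℂ, Tendsto (fun z => ψ z - z) (Bornology.cobounded ℂ) (𝓝 b)) →
      DifferentiableOn ℂ h {z : ℂ | 1 < ‖z‖} → (∀ z : ℂ, 1 < ‖z‖ → Complex.exp (h z) = deriv ψ z) →
      Tendsto h (Bornology.cobounded ℂ) (𝓝 0) →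
      (∀ r : ℝ, 1 < r → r < 2 → exc β h r ≤ ENNReal.ofReal (K * (r - 1) ^ (-τ))) →
      (1 / (2 * Real.pi)) * ∫ θ in (0:ℝ)..(2 * Real.pi), Real.exp (a * ‖h (ep R θ)‖ ^ 2 / Real.log (R ^ 2 / (R ^ 2 - 1))) ≤ C := by
  set K' : ℝ := 3 * |K| * 2 ^ |τ| + 144 * 2 ^ |τ| with hK'
  have hK0 : 0 ≤ K' := by positivity
  refine ⟨_, fun R hR ψ h hd hi hb hh he h0 hex => core (Pool.Agent.W677.Mar.toSg hd hi hb hh he h0) ha hβ haβ haτ hK0 ?_ hR⟩
  have S := Pool.Agent.W677.Mar.toSg hd hi hb hh he h0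
  have hol : Hol h 0 := ⟨hh, h0⟩
  intro t t0 t1
  have hp1 : 0 < 1 - t := by linarith
  rcases le_or_gt t (1 / 2) with h2 | h2
  · refine (BB_small S t0 h2 (τ := τ)).trans ?_
    apply ENNReal.ofReal_le_ofReal
    rw [hK']
    have : 0 ≤ 3 * |K| * 2 ^ |τ| * (1 - t) ^ (-τ) := by positivity
    nlinarith
  · rw [BB_ext hol t0 t1]
    have hr1 : 1 < t⁻¹ := (one_lt_inv₀ t0).2 t1
    have hr2 : t⁻¹ < 2 := by
      rw [inv_lt_comm₀ t0 (by norm_num)]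
      linarith
    have h3 := hex t⁻¹ hr1 hr2
    refine (mul_le_mul_right h3 _).trans ?_
    rw [← ENNReal.ofReal_mul (by positivity)]
    apply ENNReal.ofReal_le_ofReal
    have e1 : t⁻¹ - 1 = (1 - t) * t⁻¹ := by field_simp
    have e2 : (t⁻¹ - 1) ^ (-τ) = (1 - t) ^ (-τ) * t ^ τ := by
      rw [e1, Real.mul_rpow hp1.le (by positivity), Real.inv_rpow t0.le, Real.rpow_neg t0.le, inv_inv]
    have e3 : t ^ τ ≤ 2 ^ |τ| := two_abs h2.le t1.le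
    have e4 : t⁻¹ ^ 4 ≤ 16 := by
      calc t⁻¹ ^ 4 ≤ 2 ^ 4 := by gcongr
        _ = 16 := by norm_num
    have e5 : (2 * Real.pi)⁻¹ ≤ 1 / 6 := by
      rw [one_div]
      apply inv_anti₀ (by norm_num)
      have := Real.pi_gt_three
      linarith
    rw [e2, hK']
    have e6 : K ≤ |K| := le_abs_self K
    have e7 : 0 ≤ (1 - t) ^ (-τ) := by positivity
    have e8 : 0 ≤ t ^ τ := by positivity
    calc (2 * Real.pi)⁻¹ * t⁻¹ ^ 4 * (K * ((1 - t) ^ (-τ) * t ^ τ))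
        ≤ (2 * Real.pi)⁻¹ * t⁻¹ ^ 4 * (|K| * ((1 - t) ^ (-τ) * t ^ τ)) := by gcongr
      _ ≤ 1 / 6 * 16 * (|K| * ((1 - t) ^ (-τ) * 2 ^ |τ|)) := by gcongr
      _ ≤ 3 * (|K| * ((1 - t) ^ (-τ) * 2 ^ |τ|)) := by gcongr; norm_num
      _ = 3 * |K| * 2 ^ |τ| * (1 - t) ^ (-τ) := by ring
      _ ≤ (3 * |K| * 2 ^ |τ| + 144 * 2 ^ |τ|) * (1 - t) ^ (-τ) := by
          have : 0 ≤ 144 * 2 ^ |τ| * (1 - t) ^ (-τ) := by positivity
          nlinarith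

/-- the Bloch bound outside -/
theorem bloch_ext {Y h : ℂ → ℂ} (S : Sg Y (hat h 0)) (hol : Hol h 0) {r : ℝ} (hr : 1 < r) (θ : ℝ) :
    ‖deriv h (ep r θ)‖ ≤ 6 / (r * (r - 1)) := by
  have hr0 : 0 < r := by linarith
  have t0 : 0 < r⁻¹ := by positivity
  have t1 : r⁻¹ < 1 := inv_lt_one_of_one_lt₀ hr
  have h1 := Pool.Agent.W677.Mar.H_bloch S (cm_mem t0 t1 (-θ))
  rw [norm_cm t0, norm_deriv_hat hol t0 t1, inv_inv, neg_neg] at h1
  have h2 : 0 < r * (r - 1) := mul_pos hr0 (by linarith)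
  rw [le_div_iff₀ h2]
  have e : r ^ 2 * ‖deriv h (ep r θ)‖ * (1 - r⁻¹) = ‖deriv h (ep r θ)‖ * (r * (r - 1)) := by
    field_simp
  linarith

/-- **Measure version.** -/
theorem thm3 (a β b K : ℝ) (ha : 0 < a) (hβ : 0 ≤ β) (haβ : a * β ^ 2 < 1) (hab : a < b) :
    ∃ C : ℝ, ∀ R : ℝ, 1 < R → ∀ ψ h : ℂ → ℂ, DifferentiableOn ℂ ψ {z : ℂ | 1 < ‖z‖} → InjOn ψ {z : ℂ | 1 < ‖z‖} →
      (∃ b : ℂ, Tendsto (fun z => ψ z - z) (Bornology.cobounded ℂ) (𝓝 b)) →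
      DifferentiableOn ℂ h {z : ℂ | 1 < ‖z‖} → (∀ z : ℂ, 1 < ‖z‖ → Complex.exp (h z) = deriv ψ z) →
      Tendsto h (Bornology.cobounded ℂ) (𝓝 0) →
      (∀ r : ℝ, 1 < r → r < 2 → volume {θ : ℝ | θ ∈ Ioc 0 (2 * Real.pi) ∧ β < (r ^ 2 - 1) * ‖deriv h (ep r θ)‖} ≤
        ENNReal.ofReal (K * (r - 1) ^ b)) →
      (1 / (2 * Real.pi)) * ∫ θ in (0:ℝ)..(2 * Real.pi), Real.exp (a * ‖h (ep R θ)‖ ^ 2 / Real.log (R ^ 2 / (R ^ 2 - 1))) ≤ C := by
  classical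
  obtain ⟨C, hC⟩ := thm2 a β (2 - b) (36 * K) ha hβ haβ (by linarith)
  refine ⟨C, fun R hR ψ h hd hi hb hh he h0 hv => hC R hR ψ h hd hi hb hh he h0 ?_⟩
  have S := Pool.Agent.W677.Mar.toSg hd hi hb hh he h0
  have hol : Hol h 0 := ⟨hh, h0⟩
  intro r hr1 hr2
  have hr : 0 < r - 1 := by linarith
  have hm : MeasurableSet {θ : ℝ | β < (r ^ 2 - 1) * ‖deriv h (ep r θ)‖} :=
    measurableSet_lt measurable_const ((meas_ep h r).const_mul _)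
  have e1 : exc β h r ≤ ∫⁻ θ in Ioc 0 (2 * Real.pi), {θ : ℝ | β < (r ^ 2 - 1) * ‖deriv h (ep r θ)‖}.indicator (fun _ => ENNReal.ofReal (36 * (r - 1) ^ (-2 : ℝ))) θ := by
    unfold exc
    apply lintegral_mono
    intro θ
    simp only [indicator, mem_setOf_eq]
    split_ifs with hb
    · apply ENNReal.ofReal_le_ofReal
      have h2 := bloch_ext S hol hr1 θ
      have h3 : 6 / (r * (r - 1)) ≤ 6 / (r - 1) := by
        apply div_le_div_of_nonneg_left (by norm_num) hr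
        nlinarith
      calc ‖deriv h (ep r θ)‖ ^ 2 ≤ (6 / (r - 1)) ^ 2 := by
            have := h2.trans h3
            gcongr
        _ = 36 * (r - 1) ^ (-2 : ℝ) := by
            rw [Real.rpow_neg hr.le, div_pow]
            norm_num
            rfl
    · exact le_rfl
  refine e1.trans ?_
  rw [lintegral_indicator hm, lintegral_const, Measure.restrict_apply MeasurableSet.univ, univ_inter,
    Measure.restrict_apply hm]
  have e2 : {θ : ℝ | β < (r ^ 2 - 1) * ‖deriv h (ep r θ)‖} ∩ Ioc 0 (2 * Real.pi) =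
      {θ : ℝ | θ ∈ Ioc 0 (2 * Real.pi) ∧ β < (r ^ 2 - 1) * ‖deriv h (ep r θ)‖} := by
    ext θ
    simp only [mem_inter_iff, mem_setOf_eq]
    tauto
  rw [e2]
  refine (mul_le_mul_right (hv r hr1 hr2) _).trans (le_of_eq ?_)
  rw [← ENNReal.ofReal_mul (by positivity)]
  congr 1
  have e3 : -(2 - b) = -2 + b := by ring
  rw [e3, Real.rpow_add hr]
  ring

end Pool.Agent.TH325.SI
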