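import Mathlib
import Pool.Agent.TH325.SI.Y

/-! Boundary rotation and coefficients. -/

set_option autoImplicit false
open Complex Filter Topology Set Metric MeasureTheory
open scoped ENNReal

namespace Pool.Agent.TH325.SI

open Pool.Agent.H713R2
open Pool.Agent.W677.Mar (hat Sg Hol)

theorem sq_re {f : ℂ → ℂ} (hf : DifferentiableOn ℂ f (ball 0 1)) (hf0 : f 0 = 0) {t : ℝ} (h0 : 0 < t) (h1 : t < 1) :
    ∫ θ in (0:ℝ)..(2 * Real.pi), ‖f (circleMap 0 t θ)‖ ^ 2 = 2 * ∫ θ in (0:ℝ)..(2 * Real.pi), (f (circleMap 0 t θ)).re ^ 2 := by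
  have hpi := Real.pi_pos
  have hc := cont_cm hf h0 h1
  have hca : Real.circleAverage (fun z => f z ^ 2) 0 t = f 0 ^ 2 := by
    apply DiffContOnCl.circleAverage
    rw [abs_of_pos h0]
    exact (hf.fun_pow 2).diffContOnCl_ball (closedBall_subset_ball h1)
  rw [hf0] at hca
  unfold Real.circleAverage at hca
  have h2 : ∫ θ in (0:ℝ)..(2 * Real.pi), f (circleMap 0 t θ) ^ 2 = 0 := by
    have h3 : ((2 * Real.pi)⁻¹ : ℝ) ≠ 0 := by positivity
    have h4 : (0:ℂ) ^ 2 = 0 := by norm_num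
    rw [h4] at hca
    exact (smul_eq_zero.1 hca).resolve_left h3
  have h3 : ∫ θ in (0:ℝ)..(2 * Real.pi), (f (circleMap 0 t θ) ^ 2).re = 0 := by
    have h4 : Continuous fun θ : ℝ => f (circleMap 0 t θ) ^ 2 := hc.pow 2
    have := Complex.reCLM.intervalIntegral_comp_comm (h4.intervalIntegrable (μ := volume) 0 (2 * Real.pi))
    rw [h2] at this
    simpa using this
  have hre : Continuous fun θ : ℝ => (f (circleMap 0 t θ)).re ^ 2 := (Complex.continuous_re.comp hc).pow 2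
  have hre2 : Continuous fun θ : ℝ => (f (circleMap 0 t θ) ^ 2).re := Complex.continuous_re.comp (hc.pow 2)
  have h5 : ∫ θ in (0:ℝ)..(2 * Real.pi), ‖f (circleMap 0 t θ)‖ ^ 2 =
      ∫ θ in (0:ℝ)..(2 * Real.pi), (2 * (f (circleMap 0 t θ)).re ^ 2 - (f (circleMap 0 t θ) ^ 2).re) := by
    apply intervalIntegral.integral_congr
    intro θ _
    simp only
    rw [← Complex.normSq_eq_norm_sq, Complex.normSq_apply, sq (f (circleMap 0 t θ)), Complex.mul_re]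
    ring
  rw [h5, intervalIntegral.integral_sub ((hre.const_mul 2).intervalIntegrable _ _) (hre2.intervalIntegrable _ _), h3,
    intervalIntegral.integral_const_mul, sub_zero]

/-- `ψ'' / ψ' = h'` -/
theorem logder {ψ h : ℂ → ℂ} (hh : DifferentiableOn ℂ h {z : ℂ | 1 < ‖z‖})
    (he : ∀ z : ℂ, 1 < ‖z‖ → Complex.exp (h z) = deriv ψ z) {z : ℂ} (hz : 1 < ‖z‖) :
    z * deriv (deriv ψ) z / deriv ψ z = z * deriv h z := by
  have ho : IsOpen {z : ℂ | 1 < ‖z‖} := isOpen_lt continuous_const continuous_norm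
  have h1 : HasDerivAt h (deriv h z) z := ((hh z hz).differentiableAt (ho.mem_nhds hz)).hasDerivAt
  have h2 : (fun w => Complex.exp (h w)) =ᶠ[𝓝 z] deriv ψ := by
    filter_upwards [ho.mem_nhds hz] with w hw
    exact he w hw
  have h3 : deriv (deriv ψ) z = Complex.exp (h z) * deriv h z := by
    rw [← h2.deriv_eq]
    exact h1.cexp.deriv
  rw [h3, ← he z hz]
  have := Complex.exp_ne_zero (h z)
  field_simp

/-- the mean square in terms of the boundary rotation -/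
theorem mn_rot {ψ h : ℂ → ℂ} {Y : ℂ → ℂ} (S : Sg Y (hat h 0)) (hol : Hol h 0)
    (he : ∀ z : ℂ, 1 < ‖z‖ → Complex.exp (h z) = deriv ψ z) {t : ℝ} (h0 : 0 < t) (h1 : t < 1) :
    t ^ 2 * mn (deriv (hat h 0)) t ≤ (2 * Real.pi)⁻¹ * (12 / (1 - t) *
      ((∫ θ in (0:ℝ)..(2 * Real.pi), |(1 + ep t⁻¹ θ * deriv (deriv ψ) (ep t⁻¹ θ) / deriv ψ (ep t⁻¹ θ)).re|) + 2 * Real.pi)) := by
  have hpi := Real.pi_pos
  have hpi0 : (0:ℝ) ≤ 2 * Real.pi := by positivity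
  have ht : 0 < 1 - t := by linarith
  have hr1 : 1 < t⁻¹ := (one_lt_inv₀ h0).2 h1
  have hmem : ∀ θ : ℝ, 1 < ‖ep t⁻¹ θ‖ := fun θ => by rw [norm_ep (by positivity)]; exact hr1
  set f : ℂ → ℂ := fun x => x * deriv (hat h 0) x with hf
  have hfd : DifferentiableOn ℂ f (ball 0 1) := differentiableOn_id.mul (S.dH.deriv isOpen_ball)
  have hsq := sq_re hfd (by simp [hf]) h0 h1
  have e1 : t ^ 2 * mn (deriv (hat h 0)) t = (2 * Real.pi)⁻¹ * ∫ θ in (0:ℝ)..(2 * Real.pi), ‖f (circleMap 0 t θ)‖ ^ 2 := by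
    unfold mn
    rw [mul_left_comm, ← intervalIntegral.integral_const_mul]
    congr 1
    apply intervalIntegral.integral_congr
    intro θ _
    simp only [hf]
    rw [norm_mul, mul_pow, norm_cm h0]
  rw [e1, hsq]
  apply mul_le_mul_of_nonneg_left _ (by positivity)
  have hc := cont_cm hfd h0 h1
  have hcr : Continuous fun θ : ℝ => (f (circleMap 0 t θ)).re := Complex.continuous_re.comp hc
  -- the sup bound
  have hsup : ∀ θ : ℝ, |(f (circleMap 0 t θ)).re| ≤ 6 / (1 - t) := by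
    intro θ
    have h3 := Pool.Agent.W677.Mar.H_bloch S (cm_mem h0 h1 θ)
    rw [norm_cm h0] at h3
    have h4 : ‖deriv (hat h 0) (circleMap 0 t θ)‖ ≤ 6 / (1 - t) := by
      rw [le_div_iff₀ ht]; exact h3
    calc |(f (circleMap 0 t θ)).re| ≤ ‖f (circleMap 0 t θ)‖ := Complex.abs_re_le_norm _
      _ = t * ‖deriv (hat h 0) (circleMap 0 t θ)‖ := by simp only [hf]; rw [norm_mul, norm_cm h0]
      _ ≤ 1 * (6 / (1 - t)) := by gcongr
      _ = _ := one_mul _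
  have h2 : ∫ θ in (0:ℝ)..(2 * Real.pi), (f (circleMap 0 t θ)).re ^ 2 ≤ ∫ θ in (0:ℝ)..(2 * Real.pi), 6 / (1 - t) * |(f (circleMap 0 t θ)).re| := by
    have hcr2 : Continuous fun θ : ℝ => (f (circleMap 0 t θ)).re ^ 2 := hcr.pow 2
    have hcr3 : Continuous fun θ : ℝ => 6 / (1 - t) * |(f (circleMap 0 t θ)).re| := continuous_const.mul hcr.abs
    apply intervalIntegral.integral_mono_on hpi0 (hcr2.intervalIntegrable _ _) (hcr3.intervalIntegrable _ _)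
    intro θ _
    rw [← sq_abs, sq]
    exact mul_le_mul_of_nonneg_right (hsup θ) (abs_nonneg _)
  rw [intervalIntegral.integral_const_mul] at h2
  -- the L¹ norm
  have hcz : Continuous fun θ : ℝ => ep t⁻¹ θ := by
    unfold ep
    fun_prop
  have hcd : Continuous fun θ : ℝ => deriv h (ep t⁻¹ θ) := by
    rw [← continuousOn_univ]
    have ho : IsOpen {z : ℂ | 1 < ‖z‖} := isOpen_lt continuous_const continuous_norm
    exact (hol.1.deriv ho).continuousOn.comp hcz.continuousOn fun θ _ => hmem θ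
  have hcg : Continuous fun θ : ℝ => (ep t⁻¹ θ * deriv h (ep t⁻¹ θ)).re := Complex.continuous_re.comp (hcz.mul hcd)
  have h3 : ∫ θ in (0:ℝ)..(2 * Real.pi), |(f (circleMap 0 t θ)).re| = ∫ θ in (0:ℝ)..(2 * Real.pi), |(ep t⁻¹ θ * deriv h (ep t⁻¹ θ)).re| := by
    rw [← refl_int (F := fun θ => |(ep t⁻¹ θ * deriv h (ep t⁻¹ θ)).re|) (fun θ => by simp only [ep_per t⁻¹ θ])]
    apply intervalIntegral.integral_congr
    intro θ _
    simp only [hf]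
    rw [Pool.Agent.W677.Mar.hat_deriv hol (cm_mem h0 h1 θ) (cm_ne h0 θ), cm_inv h0, Complex.neg_re, abs_neg]
  have h4 : ∫ θ in (0:ℝ)..(2 * Real.pi), |(ep t⁻¹ θ * deriv h (ep t⁻¹ θ)).re| ≤
      (∫ θ in (0:ℝ)..(2 * Real.pi), |(1 + ep t⁻¹ θ * deriv (deriv ψ) (ep t⁻¹ θ) / deriv ψ (ep t⁻¹ θ)).re|) + 2 * Real.pi := by
    have e2 : ∀ θ : ℝ, |(1 + ep t⁻¹ θ * deriv (deriv ψ) (ep t⁻¹ θ) / deriv ψ (ep t⁻¹ θ)).re| = |1 + (ep t⁻¹ θ * deriv h (ep t⁻¹ θ)).re| := by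
      intro θ
      rw [logder hol.1 he (hmem θ)]
      simp
    simp only [e2]
    have hc2 : Continuous fun θ : ℝ => |1 + (ep t⁻¹ θ * deriv h (ep t⁻¹ θ)).re| := (continuous_const.add hcg).abs
    have h5 : ∫ θ in (0:ℝ)..(2 * Real.pi), |(ep t⁻¹ θ * deriv h (ep t⁻¹ θ)).re| ≤ ∫ θ in (0:ℝ)..(2 * Real.pi), (|1 + (ep t⁻¹ θ * deriv h (ep t⁻¹ θ)).re| + 1) := by
      apply intervalIntegral.integral_mono_on hpi0 (hcg.abs.intervalIntegrable _ _) ((hc2.add continuous_const).intervalIntegrable _ _)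
      intro θ _
      have := abs_sub (1 + (ep t⁻¹ θ * deriv h (ep t⁻¹ θ)).re) 1
      rw [add_sub_cancel_left, abs_one] at this
      exact this
    rw [intervalIntegral.integral_add (hc2.intervalIntegrable _ _) (by simp)] at h5
    simpa using h5
  rw [h3] at h2
  have h6 : 0 < 6 / (1 - t) := by positivity
  calc 2 * ∫ θ in (0:ℝ)..(2 * Real.pi), (f (circleMap 0 t θ)).re ^ 2
      ≤ 2 * (6 / (1 - t) * ∫ θ in (0:ℝ)..(2 * Real.pi), |(ep t⁻¹ θ * deriv h (ep t⁻¹ θ)).re|) := by gcongr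
    _ ≤ 2 * (6 / (1 - t) * ((∫ θ in (0:ℝ)..(2 * Real.pi), |(1 + ep t⁻¹ θ * deriv (deriv ψ) (ep t⁻¹ θ) / deriv ψ (ep t⁻¹ θ)).re|) + 2 * Real.pi)) := by gcongr
    _ = _ := by ring

/-- **Boundary rotation.** -/
theorem thm4 (a κ K : ℝ) (ha : 0 < a) (hκ : 0 ≤ κ) (haκ : a + κ < 1) :
    ∃ C : ℝ, ∀ R : ℝ, 1 < R → ∀ ψ h : ℂ → ℂ, DifferentiableOn ℂ ψ {z : ℂ | 1 < ‖z‖} → InjOn ψ {z : ℂ | 1 < ‖z‖} →
      (∃ b : ℂ, Tendsto (fun z => ψ z - z) (Bornology.cobounded ℂ) (𝓝 b)) →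
      DifferentiableOn ℂ h {z : ℂ | 1 < ‖z‖} → (∀ z : ℂ, 1 < ‖z‖ → Complex.exp (h z) = deriv ψ z) →
      Tendsto h (Bornology.cobounded ℂ) (𝓝 0) →
      (∀ r : ℝ, 1 < r → r < 2 → ∫ θ in (0:ℝ)..(2 * Real.pi), |(1 + ep r θ * deriv (deriv ψ) (ep r θ) / deriv ψ (ep r θ)).re| ≤
        K * (r - 1) ^ (-κ)) →
      (1 / (2 * Real.pi)) * ∫ θ in (0:ℝ)..(2 * Real.pi), Real.exp (a * ‖h (ep R θ)‖ ^ 2 / Real.log (R ^ 2 / (R ^ 2 - 1))) ≤ C := by
  have hpi := Real.pi_pos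
  set K' : ℝ := 8 * (|K| + 7) + 144 * 2 ^ |1 + κ| with hK'
  have hK0 : 0 ≤ K' := by positivity
  refine ⟨_, fun R hR ψ h hd hi hb hh he h0 hV => core (β := 0) (τ := 1 + κ) (Pool.Agent.W677.Mar.toSg hd hi hb hh he h0) ha le_rfl (by simp) (by linarith) hK0 ?_ hR⟩
  have S := Pool.Agent.W677.Mar.toSg hd hi hb hh he h0
  have hol : Hol h 0 := ⟨hh, h0⟩
  intro t t0 t1
  have hp1 : 0 < 1 - t := by linarith
  have hpp : 0 ≤ (1 - t) ^ (-(1 + κ)) := by positivity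
  rcases le_or_gt t (1 / 2) with h2 | h2
  · refine (BB_small S t0 h2 (τ := 1 + κ)).trans ?_
    apply ENNReal.ofReal_le_ofReal
    apply mul_le_mul_of_nonneg_right _ hpp
    rw [hK']
    have : 0 ≤ 8 * (|K| + 7) := by positivity
    linarith
  · refine (BB_le S.dH t0 t1).trans ?_
    apply ENNReal.ofReal_le_ofReal
    have hr1 : 1 < t⁻¹ := (one_lt_inv₀ t0).2 t1
    have hr2 : t⁻¹ < 2 := by
      rw [inv_lt_comm₀ t0 (by norm_num)]
      linarith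
    have h3 := mn_rot S hol he t0 t1
    have h4 := hV t⁻¹ hr1 hr2
    have e1 : t⁻¹ - 1 = (1 - t) * t⁻¹ := by field_simp
    have e2 : (t⁻¹ - 1) ^ (-κ) = (1 - t) ^ (-κ) * t ^ κ := by
      rw [e1, Real.mul_rpow hp1.le (by positivity), Real.inv_rpow t0.le, Real.rpow_neg t0.le, inv_inv]
    have e3 : t ^ κ ≤ 1 := Real.rpow_le_one t0.le t1.le hκ
    have e4 : 1 ≤ (1 - t) ^ (-κ) := Real.one_le_rpow_of_pos_of_le_one_of_nonpos hp1 (by linarith) (by linarith)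
    have e0 : 0 ≤ t ^ κ := by positivity
    have e5 : K * (t⁻¹ - 1) ^ (-κ) ≤ |K| * (1 - t) ^ (-κ) := by
      rw [e2]
      calc K * ((1 - t) ^ (-κ) * t ^ κ) ≤ |K| * ((1 - t) ^ (-κ) * t ^ κ) := by
            apply mul_le_mul_of_nonneg_right (le_abs_self K); positivity
        _ ≤ |K| * ((1 - t) ^ (-κ) * 1) := by gcongr
        _ = _ := by ring
    have e6 : 2 * Real.pi ≤ 7 * (1 - t) ^ (-κ) := by
      have := Real.pi_lt_d2
      calc 2 * Real.pi ≤ 7 * 1 := by linarith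
        _ ≤ _ := by gcongr
    have e7 : (2 * Real.pi)⁻¹ ≤ 1 / 6 := by
      rw [one_div]
      apply inv_anti₀ (by norm_num)
      have := Real.pi_gt_three
      linarith
    have e8 : (1 - t) ^ (-(1 + κ)) = (1 - t)⁻¹ * (1 - t) ^ (-κ) := by
      rw [neg_add, Real.rpow_add hp1, Real.rpow_neg_one]
    have h5 : t ^ 2 * mn (deriv (hat h 0)) t ≤ 2 * (|K| + 7) * (1 - t) ^ (-(1 + κ)) := by
      calc t ^ 2 * mn (deriv (hat h 0)) t ≤ _ := h3
        _ ≤ (2 * Real.pi)⁻¹ * (12 / (1 - t) * (|K| * (1 - t) ^ (-κ) + 7 * (1 - t) ^ (-κ))) := by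
            gcongr
            exact h4.trans e5
        _ ≤ 1 / 6 * (12 / (1 - t) * (|K| * (1 - t) ^ (-κ) + 7 * (1 - t) ^ (-κ))) := by gcongr
        _ = 2 * (|K| + 7) * (1 - t) ^ (-(1 + κ)) := by
            rw [e8]
            field_simp
            ring
    have h6 : (1 / 4) * mn (deriv (hat h 0)) t ≤ t ^ 2 * mn (deriv (hat h 0)) t := by
      apply mul_le_mul_of_nonneg_right _ (mn_nonneg _ _)
      nlinarith
    have h7 : mn (deriv (hat h 0)) t ≤ 8 * (|K| + 7) * (1 - t) ^ (-(1 + κ)) := by linarith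
    refine h7.trans ?_
    apply mul_le_mul_of_nonneg_right _ hpp
    rw [hK']
    have : (0:ℝ) ≤ 144 * 2 ^ |1 + κ| := by positivity
    linarith

theorem exc_eq (β : ℝ) (h : ℂ → ℂ) (r : ℝ) : exc β h r =
    ∫⁻ θ in {θ : ℝ | θ ∈ Ioc 0 (2 * Real.pi) ∧ β < (r ^ 2 - 1) * ‖deriv h (ep r θ)‖}, ENNReal.ofReal (‖deriv h (ep r θ)‖ ^ 2) := by
  classical
  have hm : MeasurableSet {θ : ℝ | β < (r ^ 2 - 1) * ‖deriv h (ep r θ)‖} :=
    measurableSet_lt measurable_const ((meas_ep h r).const_mul _)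
  have e1 : exc β h r = ∫⁻ θ in Ioc 0 (2 * Real.pi), {θ : ℝ | β < (r ^ 2 - 1) * ‖deriv h (ep r θ)‖}.indicator
      (fun θ => ENNReal.ofReal (‖deriv h (ep r θ)‖ ^ 2)) θ := by
    unfold exc
    rfl
  have e2 : {θ : ℝ | β < (r ^ 2 - 1) * ‖deriv h (ep r θ)‖} ∩ Ioc 0 (2 * Real.pi) =
      {θ : ℝ | θ ∈ Ioc 0 (2 * Real.pi) ∧ β < (r ^ 2 - 1) * ‖deriv h (ep r θ)‖} := by
    rw [inter_comm]
    rfl
  rw [e1, lintegral_indicator hm, Measure.restrict_restrict hm, e2]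

/-- **Coefficients.** -/
theorem thm1 (a R : ℝ) (ha : 0 < a) (ha1 : a ≤ 1) (hR : 1 < R) (hR2 : R ≤ 2) (ψ h : ℂ → ℂ) (c : ℕ → ℂ)
    (hd : DifferentiableOn ℂ ψ {z : ℂ | 1 < ‖z‖}) (hi : InjOn ψ {z : ℂ | 1 < ‖z‖})
    (hb : ∃ b : ℂ, Tendsto (fun z => ψ z - z) (Bornology.cobounded ℂ) (𝓝 b))
    (hh : DifferentiableOn ℂ h {z : ℂ | 1 < ‖z‖}) (he : ∀ z : ℂ, 1 < ‖z‖ → Complex.exp (h z) = deriv ψ z)
    (h0 : Tendsto h (Bornology.cobounded ℂ) (𝓝 0))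
    (hc : ∀ z : ℂ, 1 < ‖z‖ → HasSum (fun n : ℕ => c n * (z⁻¹) ^ (n + 1)) (h z)) :
    Summable (fun n : ℕ => ((n:ℝ) + 1) ^ a * ‖c n‖ ^ 2 * (R⁻¹) ^ (2 * (n + 1))) ∧
    (1 / (2 * Real.pi)) * ∫ θ in (0:ℝ)..(2 * Real.pi), Real.exp (a * ‖h (ep R θ)‖ ^ 2 / Real.log (R ^ 2 / (R ^ 2 - 1))) ≤
      1 + 24 * a * ∑' n : ℕ, ((n:ℝ) + 1) ^ a * ‖c n‖ ^ 2 * (R⁻¹) ^ (2 * (n + 1)) := by
  have S := Pool.Agent.W677.Mar.toSg hd hi hb hh he h0
  have hG : ∀ w ∈ ball (0:ℂ) 1, ‖hat h 0 w‖ ≤ -Real.log (1 - ‖w‖ ^ 2) := fun w hw => Pool.Agent.W677.Mar.goluzin S hw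
  have hR1 : R⁻¹ < 1 := inv_lt_one_of_one_lt₀ hR
  have hR3 : 1 / 2 ≤ R⁻¹ := by
    rw [one_div]
    exact inv_anti₀ (by linarith) hR2
  have hm := main1 S.dH S.H0 hG ha ha1 hR3 hR1
  set A : ℕ → ℂ := fun n => Nat.casesOn n 0 c with hA
  have htc : A = tc (hat h 0) := by
    apply tc_unique one_pos S.dH
    filter_upwards [ball_mem_nhds (0 : ℂ) one_pos] with x hx
    rw [← hasSum_nat_add_iff' 1]
    simp only [Finset.range_one, Finset.sum_singleton, hA, pow_zero, mul_one]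
    by_cases hx0 : x = 0
    · rw [hx0, Pool.Agent.W677.Mar.hat_zero]
      simp
    · rw [Pool.Agent.W677.Mar.hat_ne _ _ hx0]
      have := hc x⁻¹ (Pool.Agent.W677.Mar.inv_ext hx hx0)
      simpa using this
  have htc2 : ∀ n : ℕ, tc (hat h 0) (n + 1) = c n := by
    intro n
    rw [← htc]
  simp only [htc2] at hm
  rw [mean_eq hR]
  exact hm

end Pool.Agent.TH325.SI
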